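import Mathlib

set_option autoImplicit false

/-!
# Eigenvalues of endomorphisms of finite dimensional local algebras

Let `A` be a finite dimensional algebra with a nilpotent ideal `𝔫` of codimension one and let `T` be
an endomorphism of `A`. The eigenvalues of `T` are products of eigenvalues of `T` on `𝔫 / 𝔫 ^ 2`.
-/

namespace Pool.Agent.N137.AO

open Module.End

variable {K A : Type*} [Field K] [CommRing A] [Algebra K A]

theorem gen_mul_aux (T : A →ₐ[K] A) (μ ν : K) (n : ℕ) : ∀ i j : ℕ, i + j ≤ n → ∀ a b : A,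
    ((T.toLinearMap - μ • (1 : Module.End K A)) ^ i) a = 0 →
    ((T.toLinearMap - ν • (1 : Module.End K A)) ^ j) b = 0 →
    ((T.toLinearMap - (μ * ν) • (1 : Module.End K A)) ^ n) (a * b) = 0 := by
  induction n with
  | zero =>
    intro i j hij a b ha hb
    have hi : i = 0 := by omega
    subst hi
    simp only [pow_zero, Module.End.one_apply] at ha ⊢
    rw [ha, zero_mul]
  | succ n ih =>
    intro i j hij a b ha hb
    rcases i with _ | i
    · simp only [pow_zero, Module.End.one_apply] at ha
      rw [ha, zero_mul, map_zero]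
    rcases j with _ | j
    · simp only [pow_zero, Module.End.one_apply] at hb
      rw [hb, mul_zero, map_zero]
    have h1 : (T.toLinearMap - (μ * ν) • (1 : Module.End K A)) (a * b) =
        (T.toLinearMap - μ • (1 : Module.End K A)) a * T b +
          (μ • a) * (T.toLinearMap - ν • (1 : Module.End K A)) b := by
      simp only [LinearMap.sub_apply, AlgHom.toLinearMap_apply, LinearMap.smul_apply,
        Module.End.one_apply, map_mul]
      simp only [Algebra.smul_def, map_mul]
      ring
    rw [pow_succ, Module.End.mul_apply, h1, map_add]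
    rw [pow_succ, Module.End.mul_apply] at ha
    have hb' := hb
    rw [pow_succ, Module.End.mul_apply] at hb
    have h2 : ((T.toLinearMap - ν • (1 : Module.End K A)) ^ (j + 1)) (T b) = 0 := by
      have hc : Commute (T.toLinearMap) ((T.toLinearMap - ν • (1 : Module.End K A)) ^ (j + 1)) := by
        apply Commute.pow_right
        exact (Commute.refl _).sub_right ((Commute.one_right _).smul_right ν)
      have h3 := congrArg (fun f : Module.End K A => f b) hc.eq
      simp only [Module.End.mul_apply] at h3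
      rw [hb', map_zero] at h3
      exact h3.symm
    rw [ih i (j + 1) (by omega) _ _ ha h2, zero_add]
    refine ih (i + 1) j (by omega) _ _ ?_ hb
    rw [map_smul, pow_succ, Module.End.mul_apply, ha, smul_zero]

theorem gen_mul (T : A →ₐ[K] A) {μ ν : K} {a b : A}
    (ha : a ∈ maxGenEigenspace T.toLinearMap μ) (hb : b ∈ maxGenEigenspace T.toLinearMap ν) :
    a * b ∈ maxGenEigenspace T.toLinearMap (μ * ν) := by
  rw [mem_maxGenEigenspace] at ha hb ⊢
  obtain ⟨i, hi⟩ := ha
  obtain ⟨j, hj⟩ := hb
  exact ⟨i + j, gen_mul_aux T μ ν (i + j) i j le_rfl a b hi hj⟩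

/-- The sum of the generalised eigenspaces for the elements of `M`. -/
def genW (T : A →ₐ[K] A) (M : Submonoid K) : Submodule K A :=
  ⨆ μ : M, maxGenEigenspace T.toLinearMap (μ : K)

theorem genW_mul (T : A →ₐ[K] A) (M : Submonoid K) {a b : A} (ha : a ∈ genW T M)
    (hb : b ∈ genW T M) : a * b ∈ genW T M := by
  unfold genW at ha
  induction ha using Submodule.iSup_induction' with
  | mem μ a ha =>
    unfold genW at hb
    induction hb using Submodule.iSup_induction' with
    | mem ν b hb =>
      exact Submodule.mem_iSup_of_mem (⟨μ * ν, M.mul_mem μ.2 ν.2⟩ : M) (gen_mul T ha hb)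
    | zero => rw [mul_zero]; exact Submodule.zero_mem _
    | add x y _ _ hx hy => rw [mul_add]; exact Submodule.add_mem _ hx hy
  | zero => rw [zero_mul]; exact Submodule.zero_mem _
  | add x y _ _ hx hy => rw [add_mul]; exact Submodule.add_mem _ hx hy

theorem genW_const (T : A →ₐ[K] A) (M : Submonoid K) (c : K) : algebraMap K A c ∈ genW T M := by
  refine Submodule.mem_iSup_of_mem (⟨1, M.one_mem⟩ : M) ?_
  rw [mem_maxGenEigenspace]
  refine ⟨1, ?_⟩
  simp

variable [IsAlgClosed K] [FiniteDimensional K A]

theorem eig_mem (T : A →ₐ[K] A) (M : Submonoid K) (I : Ideal A) (k : ℕ) (hk : I ^ k = ⊥)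
    (hc : ∀ a : A, ∃ c : K, a - algebraMap K A c ∈ I) (hT : ∀ a ∈ I, T a ∈ I)
    (hM : ∀ μ : K, μ ∉ M → ∀ a ∈ I, T a - μ • a ∈ I ^ 2 → a ∈ I ^ 2) (μ : K) (a : A)
    (ha : T a = μ • a) (ha0 : a ≠ 0) : μ ∈ M := by
  classical
  -- elements of `I` modulo `I ^ 2`
  have h1 : ∀ a ∈ I, ∃ w ∈ genW T M, w ∈ I ∧ a - w ∈ I ^ 2 := by
    have hI2 : ∀ x ∈ I ^ 2, T x ∈ I ^ 2 := by
      intro x hx
      rw [pow_two] at hx ⊢
      refine Submodule.mul_induction_on hx (fun y hy z hz => ?_) (fun y z hy hz => ?_)
      · rw [map_mul]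
        exact Ideal.mul_mem_mul (hT y hy) (hT z hz)
      · rw [map_add]
        exact add_mem hy hz
    have h2 : ∀ μ : K, μ ∉ M → ∀ n : ℕ, ∀ a ∈ I,
        ((T.toLinearMap - μ • (1 : Module.End K A)) ^ n) a = 0 → a ∈ I ^ 2 := by
      intro μ hμ n
      induction n with
      | zero =>
        intro a _ h
        simp only [pow_zero, Module.End.one_apply] at h
        rw [h]
        exact Ideal.zero_mem _
      | succ n ih =>
        intro a haI h
        rw [pow_succ, Module.End.mul_apply] at h
        refine hM μ hμ a haI ?_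
        have h3 := ih ((T.toLinearMap - μ • (1 : Module.End K A)) a) ?_ h
        · simpa using h3
        · simp only [LinearMap.sub_apply, AlgHom.toLinearMap_apply, LinearMap.smul_apply,
            Module.End.one_apply]
          refine Ideal.sub_mem _ (hT a haI) ?_
          rw [Algebra.smul_def]
          exact Ideal.mul_mem_left _ _ haI
    have h3 := Submodule.eq_iSup_inf_genEigenspace (p := I.restrictScalars K)
      (f := T.toLinearMap) ⊤ (fun x hx => hT x hx) (iSup_maxGenEigenspace_eq_top _)
    intro a haI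
    have h4 : a ∈ (I.restrictScalars K : Submodule K A) := haI
    rw [h3] at h4
    induction h4 using Submodule.iSup_induction' with
    | mem ν x hx =>
      obtain ⟨hx1, hx2⟩ := Submodule.mem_inf.1 hx
      have hx1' : x ∈ I := hx1
      by_cases hν : ν ∈ M
      · refine ⟨x, Submodule.mem_iSup_of_mem (⟨ν, hν⟩ : M) hx2, hx1', ?_⟩
        rw [sub_self]
        exact Ideal.zero_mem _
      · refine ⟨0, Submodule.zero_mem _, Ideal.zero_mem _, ?_⟩
        rw [sub_zero]
        obtain ⟨n, hn⟩ := (mem_maxGenEigenspace _ _ _).1 hx2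
        exact h2 ν hν n x hx1' hn
    | zero => exact ⟨0, Submodule.zero_mem _, Ideal.zero_mem _, by rw [sub_zero]; exact Ideal.zero_mem _⟩
    | add x y hx hy hx' hy' =>
      have hxI : x ∈ I := by
        have : x ∈ (I.restrictScalars K : Submodule K A) := by rw [h3]; exact hx
        exact this
      have hyI : y ∈ I := by
        have : y ∈ (I.restrictScalars K : Submodule K A) := by rw [h3]; exact hy
        exact this
      obtain ⟨w1, hw1, hw1', hw1''⟩ := hx' hxI
      obtain ⟨w2, hw2, hw2', hw2''⟩ := hy' hyI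
      refine ⟨w1 + w2, Submodule.add_mem _ hw1 hw2, Ideal.add_mem _ hw1' hw2', ?_⟩
      have : x + y - (w1 + w2) = (x - w1) + (y - w2) := by ring
      rw [this]
      exact Ideal.add_mem _ hw1'' hw2''
  -- elements of `I ^ j` modulo `I ^ (j + 1)`
  have h2 : ∀ j : ℕ, ∀ a ∈ I ^ j, ∃ w ∈ genW T M, w ∈ I ^ j ∧ a - w ∈ I ^ (j + 1) := by
    intro j
    induction j with
    | zero =>
      intro a _
      obtain ⟨c, hc⟩ := hc a
      refine ⟨algebraMap K A c, genW_const T M c, ?_, ?_⟩
      · rw [pow_zero, Ideal.one_eq_top]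
        exact Submodule.mem_top
      · simpa using hc
    | succ j ih =>
      intro a ha
      rw [pow_succ] at ha
      refine Submodule.mul_induction_on ha (fun y hy z hz => ?_) (fun y z hy hz => ?_)
      · obtain ⟨w, hw, hwj, hwd⟩ := ih y hy
        obtain ⟨w', hw', hwI, hwd'⟩ := h1 z hz
        refine ⟨w * w', genW_mul T M hw hw', ?_, ?_⟩
        · rw [pow_succ]
          exact Ideal.mul_mem_mul hwj hwI
        · have : y * z - w * w' = (y - w) * z + w * (z - w') := by ring
          rw [this]
          refine Ideal.add_mem _ ?_ ?_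
          · rw [pow_succ]
            exact Ideal.mul_mem_mul hwd hz
          · have h5 : I ^ (j + 1 + 1) = I ^ j * I ^ 2 := by
              rw [← pow_add]
            rw [h5]
            exact Ideal.mul_mem_mul hwj hwd'
      · obtain ⟨w1, hw1, hw1', hw1''⟩ := hy
        obtain ⟨w2, hw2, hw2', hw2''⟩ := hz
        refine ⟨w1 + w2, Submodule.add_mem _ hw1 hw2, Ideal.add_mem _ hw1' hw2', ?_⟩
        have : y + z - (w1 + w2) = (y - w1) + (z - w2) := by ring
        rw [this]
        exact Ideal.add_mem _ hw1'' hw2''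
  have h3 : ∀ j : ℕ, ∀ a : A, ∃ w ∈ genW T M, a - w ∈ I ^ j := by
    intro j
    induction j with
    | zero =>
      intro a
      exact ⟨0, Submodule.zero_mem _, by rw [pow_zero, Ideal.one_eq_top]; exact Submodule.mem_top⟩
    | succ j ih =>
      intro a
      obtain ⟨w, hw, hwj⟩ := ih a
      obtain ⟨w', hw', _, hwj'⟩ := h2 j _ hwj
      refine ⟨w + w', Submodule.add_mem _ hw hw', ?_⟩
      rw [← sub_sub]
      exact hwj'
  have h4 : a ∈ genW T M := by
    obtain ⟨w, hw, hwk⟩ := h3 k a
    rw [hk, Ideal.mem_bot, sub_eq_zero] at hwk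
    rw [hwk]
    exact hw
  by_contra hμ
  have h5 := (independent_maxGenEigenspace (T.toLinearMap)).disjoint_biSup (x := μ)
    (y := (M : Set K)) hμ
  have h6 : a ∈ maxGenEigenspace T.toLinearMap μ := by
    rw [mem_maxGenEigenspace]
    refine ⟨1, ?_⟩
    simp [ha]
  have h7 : genW T M ≤ ⨆ i ∈ (M : Set K), maxGenEigenspace T.toLinearMap i := by
    unfold genW
    exact iSup_le fun μ => le_iSup₂_of_le (μ : K) μ.2 le_rfl
  exact ha0 (Submodule.disjoint_def.1 h5 a h6 (h7 h4))

end Pool.Agent.N137.AO
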