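import Pool.Agent.N137.AO.Orb

set_option autoImplicit false

/-!
# Tangent vectors
-/

namespace Pool.Agent.N137.AO

open MvPolynomial Filter Topology

section der

variable {F : Type} [Field F] {m : ℕ}

/-- The derivative of `h` at `p` in the direction `w`. -/
noncomputable def der (p w : Fin m → F) : MvPolynomial (Fin m) F →ₗ[F] F :=
  ∑ j, w j • ((aeval p : MvPolynomial (Fin m) F →ₐ[F] F).toLinearMap ∘ₗ
    (pderiv j : Derivation F (MvPolynomial (Fin m) F) (MvPolynomial (Fin m) F)).toLinearMap)

theorem der_apply (p w : Fin m → F) (h : MvPolynomial (Fin m) F) :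
    der p w h = ∑ j, w j * eval p (pderiv j h) := by
  simp [der, MvPolynomial.aeval_eq_eval]

theorem der_mul (p w : Fin m → F) (a b : MvPolynomial (Fin m) F) :
    der p w (a * b) = eval p a * der p w b + eval p b * der p w a := by
  simp only [der_apply, Finset.mul_sum, ← Finset.sum_add_distrib]
  refine Finset.sum_congr rfl fun j _ => ?_
  rw [pderiv_mul, map_add, map_mul, map_mul]
  ring

theorem der_C (p w : Fin m → F) (a : F) : der p w (C a) = 0 := by
  simp [der_apply]

theorem der_X (p w : Fin m → F) (i : Fin m) : der p w (X i) = w i := by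
  rw [der_apply, Finset.sum_eq_single i]
  · simp
  · intro j _ hj
    rw [pderiv_X_of_ne hj.symm, map_zero, mul_zero]
  · intro h
    exact absurd (Finset.mem_univ _) h

theorem der_add_left (p w w' : Fin m → F) (h : MvPolynomial (Fin m) F) :
    der p (w + w') h = der p w h + der p w' h := by
  simp only [der_apply, ← Finset.sum_add_distrib, Pi.add_apply]
  exact Finset.sum_congr rfl fun j _ => by ring

theorem der_smul_left (p w : Fin m → F) (c : F) (h : MvPolynomial (Fin m) F) :
    der p (c • w) h = c * der p w h := by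
  simp only [der_apply, Finset.mul_sum, Pi.smul_apply, smul_eq_mul]
  exact Finset.sum_congr rfl fun j _ => by ring

theorem der_sq (p w : Fin m → F) {h : MvPolynomial (Fin m) F} (hh : h ∈ mxi p ^ 2) :
    der p w h = 0 := by
  rw [pow_two] at hh
  refine Submodule.mul_induction_on hh (fun a ha b hb => ?_) (fun a b ha hb => ?_)
  · rw [der_mul, mem_mxi.1 ha, mem_mxi.1 hb, zero_mul, zero_mul, add_zero]
  · rw [map_add, ha, hb, add_zero]

/-- evaluation at the tangent vector -/
theorem dual_eval (p w : Fin m → F) (h : MvPolynomial (Fin m) F) :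
    aeval (fun i => (TrivSqZeroExt.inl (p i) + TrivSqZeroExt.inr (w i) : DualNumber F)) h =
      TrivSqZeroExt.inl (eval p h) + TrivSqZeroExt.inr (der p w h) := by
  induction h using MvPolynomial.induction_on with
  | C a =>
    rw [aeval_C, eval_C, der_C]
    ext <;> simp [TrivSqZeroExt.algebraMap_eq_inl]
  | add a b ha hb =>
    rw [map_add, ha, hb]
    ext <;> simp
  | mul_X a i ha =>
    rw [map_mul, ha, aeval_X, der_mul, der_X]
    ext
    · simp
    · simp
      ring

/-- Taylor's formula -/
theorem taylor (p : Fin m → F) (h : MvPolynomial (Fin m) F) :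
    h - C (eval p h) - ∑ j, C (eval p (pderiv j h)) * (X j - C (p j)) ∈ mxi p ^ 2 := by
  have hX : ∀ j, (X j - C (p j) : MvPolynomial (Fin m) F) ∈ mxi p := fun j => by
    rw [mem_mxi]; simp
  induction h using MvPolynomial.induction_on with
  | C a => simp
  | add a b ha hb =>
    have := Ideal.add_mem _ ha hb
    convert this using 1
    simp only [map_add, add_mul, Finset.sum_add_distrib]
    ring
  | mul_X a i ha =>
    set S := ∑ j, C (eval p (pderiv j a)) * (X j - C (p j)) with hS
    have hSm : S ∈ mxi p := by
      rw [hS]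
      exact Ideal.sum_mem _ fun j _ => Ideal.mul_mem_left _ _ (hX j)
    have h1 : S * (X i - C (p i)) ∈ mxi p ^ 2 := by
      rw [pow_two]
      exact Ideal.mul_mem_mul hSm (hX i)
    have h2 := Ideal.add_mem _ h1 (Ideal.mul_mem_right (X i) _ ha)
    convert h2 using 1
    have h3 : ∑ j, C (eval p (pderiv j (a * X i))) * (X j - C (p j)) =
        C (p i) * S + C (eval p a) * (X i - C (p i)) := by
      rw [hS, Finset.mul_sum]
      have h4 : ∀ j, C (eval p (pderiv j (a * X i))) * (X j - C (p j)) =
          C (p i) * (C (eval p (pderiv j a)) * (X j - C (p j))) +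
            C (eval p a * eval p (pderiv j (X i : MvPolynomial (Fin m) F))) *
              (X j - C (p j)) := by
        intro j
        rw [pderiv_mul]
        simp only [map_add, map_mul, eval_X]
        ring
      rw [Finset.sum_congr rfl fun j _ => h4 j, Finset.sum_add_distrib]
      congr 1
      rw [Finset.sum_eq_single i]
      · simp
      · intro j _ hj
        rw [pderiv_X_of_ne hj.symm]
        simp
      · intro h
        exact absurd (Finset.mem_univ _) h
    rw [h3]
    simp only [map_mul, eval_X]
    ring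

end der

namespace Dat

variable {F K : Type} [Field F] [NormedField K] [Algebra F K] {m : ℕ} (D : Dat F K m)

/-- The derivative of the map at the fixed point. -/
noncomputable def L (w : Fin m → F) : Fin m → F := fun i =>
  (der D.p w (D.f i) * eval D.p D.g - eval D.p (D.f i) * der D.p w D.g) / eval D.p D.g ^ 2

theorem der_cl (w : Fin m → F) {h : MvPolynomial (Fin m) F} (hh : h ∈ mxi D.p) :
    der D.p w (D.cl h) = eval D.p D.g ^ D.dg h * der D.p (D.L w) h := by
  have hg := D.gp
  set γ : DualNumber F := TrivSqZeroExt.inl (eval D.p D.g)⁻¹ +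
    TrivSqZeroExt.inr (-(der D.p w D.g) / eval D.p D.g ^ 2) with hγ
  have h1 := cl_spec D.f D.g h (DualNumber F)
    (aeval (fun i => (TrivSqZeroExt.inl (D.p i) + TrivSqZeroExt.inr (w i) : DualNumber F))) γ (by
      rw [dual_eval, hγ]
      ext
      · simp [hg]
      · simp
        field_simp
        ring)
  have h2 : (fun i => (aeval (fun i => (TrivSqZeroExt.inl (D.p i) + TrivSqZeroExt.inr (w i) :
      DualNumber F))) (D.f i) * γ) = fun i => (TrivSqZeroExt.inl (D.p i) +
        TrivSqZeroExt.inr (D.L w i) : DualNumber F) := by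
    funext i
    rw [dual_eval, hγ]
    have hfp := D.fp i
    ext
    · simp only [TrivSqZeroExt.fst_mul, TrivSqZeroExt.fst_add, TrivSqZeroExt.fst_inl,
        TrivSqZeroExt.fst_inr, add_zero]
      rw [hfp, div_eq_mul_inv]
    · simp [L]
      field_simp
      ring
  rw [h2, dual_eval, dual_eval] at h1
  have h3 := congrArg TrivSqZeroExt.snd h1
  have hcl := D.cl_mxi hh
  rw [mem_mxi] at hh hcl
  rw [show AO.cl D.f D.g h = D.cl h from rfl, hcl] at h3
  simp only [TrivSqZeroExt.snd_add, TrivSqZeroExt.snd_inl, TrivSqZeroExt.snd_inr, zero_add,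
    TrivSqZeroExt.snd_mul, TrivSqZeroExt.fst_add, TrivSqZeroExt.fst_inl, TrivSqZeroExt.fst_inr,
    add_zero, MulOpposite.op_zero, zero_smul, smul_eq_mul, TrivSqZeroExt.fst_pow] at h3
  rw [hγ] at h3
  simp only [TrivSqZeroExt.fst_add, TrivSqZeroExt.fst_inl, TrivSqZeroExt.fst_inr, add_zero] at h3
  rw [h3, ← mul_assoc, show AO.dg D.f D.g h = D.dg h from rfl, ← mul_pow, mul_inv_cancel₀ hg,
    one_pow, one_mul]

end Dat

end Pool.Agent.N137.AO
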