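import Mathlib

set_option autoImplicit false

/-!
# Multipliers of an attracted orbit
-/

namespace Pool.Agent.N137.AO

open MvPolynomial Filter

variable {m : ℕ}

/-- The tangent space at the point `p` of the Zariski closure `X` of the tail `{x_n : n ≥ n₀}` of a
sequence, `n₀` large (for large `n₀` the closure does not depend on `n₀`): the vectors `w` with
`∑ w_j (∂h/∂x_j)(p) = 0` for every polynomial `h` that vanishes at `x_n` for all large `n`. -/
def Tan (x : ℕ → Fin m → ℂ) (p : Fin m → ℂ) : Set (Fin m → ℂ) :=
  {w | ∀ h : MvPolynomial (Fin m) ℂ, (∀ᶠ n in atTop, eval (x n) h = 0) →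
    ∑ j, w j * eval p (pderiv j h) = 0}

/-- The value at the vector `w` of the differential at the point `p` of the rational map
`F = (f_1 / g, ..., f_m / g)`. -/
noncomputable def dF (f : Fin m → MvPolynomial (Fin m) ℂ) (g : MvPolynomial (Fin m) ℂ)
    (p w : Fin m → ℂ) : Fin m → ℂ := fun i =>
  ∑ j, w j * ((eval p (pderiv j (f i)) * eval p g - eval p (f i) * eval p (pderiv j g)) /
    eval p g ^ 2)

/-- The multipliers: the eigenvalues of the differential at `p` of the rational map `f / g` with an
eigenvector in the tangent space at `p` of the Zariski closure of the tail of the sequence `x`. -/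
def Mult (f : Fin m → MvPolynomial (Fin m) ℂ) (g : MvPolynomial (Fin m) ℂ)
    (x : ℕ → Fin m → ℂ) (p : Fin m → ℂ) : Set ℂ :=
  {μ | ∃ w ∈ Tan x p, w ≠ 0 ∧ dF f g p w = μ • w}

end Pool.Agent.N137.AO
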