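import Pool.Agent.N137.AO.Spec

set_option autoImplicit false

/-!
# Functions that are very small along the orbit

If zero is not an eigenvalue of the derivative then a polynomial whose values along (a residue class
of) the orbit are smaller than all exponentials vanishes at almost all points.
-/

namespace Pool.Agent.N137.AO

open MvPolynomial Filter Topology

theorem tend_cls (N r : ℕ) (hN : N ≠ 0) : Tendsto (fun n : ℕ => N * n + r) atTop atTop :=
  tendsto_atTop_mono (fun n => (Nat.le_mul_of_pos_left n (Nat.pos_of_ne_zero hN)).trans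
    (Nat.le_add_right _ _)) tendsto_id

theorem krull {R : Type*} [CommRing R] [IsNoetherianRing R] (I b : Ideal R) (q : R)
    (h : ∀ k : ℕ, q ∈ b ⊔ I ^ k) : ∃ t ∈ I, (1 - t) * q ∈ b := by
  have h1 : (Ideal.Quotient.mk b q) ∈ (⨅ i : ℕ, I ^ i • ⊤ : Submodule R (R ⧸ b)) := by
    rw [Submodule.mem_iInf]
    intro i
    obtain ⟨y, hy, z, hz, hyz⟩ := Submodule.mem_sup.1 (h i)
    rw [← hyz, map_add, Ideal.Quotient.eq_zero_iff_mem.2 hy, zero_add]
    have h2 : Ideal.Quotient.mk b z = z • (1 : R ⧸ b) := by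
      rw [Algebra.smul_def, mul_one]
      rfl
    rw [h2]
    exact Submodule.smul_mem_smul hz Submodule.mem_top
  obtain ⟨t, ht⟩ := (Ideal.mem_iInf_smul_pow_eq_bot_iff I _).1 h1
  refine ⟨t, t.2, ?_⟩
  rw [← Ideal.Quotient.eq_zero_iff_mem, map_mul, map_sub, map_one, sub_mul, one_mul, sub_eq_zero]
  rw [Algebra.smul_def] at ht
  exact ht.symm

theorem small_zero {w : ℕ → ℝ} (hw : ∀ n, 0 ≤ w n) {C : ℝ} {n₀ : ℕ} (hC : 1 ≤ C)
    (h : ∀ n, n₀ ≤ n → w n ≤ C * w (n + 1)) (hs : ∀ θ : ℝ, 0 < θ → ∃ B : ℝ, ∀ n, w n ≤ B * θ ^ n) :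
    ∀ n, n₀ ≤ n → w n = 0 := by
  intro n hn
  have hC0 : 0 < C := lt_of_lt_of_le one_pos hC
  have h1 : ∀ j : ℕ, w n ≤ C ^ j * w (n + j) := by
    intro j
    induction j with
    | zero => simp
    | succ j ih =>
      refine ih.trans ?_
      rw [pow_succ, mul_assoc, ← add_assoc]
      exact mul_le_mul_of_nonneg_left (h _ (by omega)) (pow_nonneg hC0.le j)
  obtain ⟨B, hB⟩ := hs (1 / (2 * C)) (by positivity)
  have h2 : ∀ j : ℕ, w n ≤ (B * (1 / (2 * C)) ^ n) * (1 / 2) ^ j := by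
    intro j
    refine (h1 j).trans ((mul_le_mul_of_nonneg_left (hB _) (pow_nonneg hC0.le j)).trans_eq ?_)
    rw [pow_add]
    have h3 : C ^ j * (1 / (2 * C)) ^ j = (1 / 2) ^ j := by
      rw [← mul_pow]
      congr 1
      field_simp
    rw [← h3]
    ring
  have h3 : Tendsto (fun j : ℕ => (B * (1 / (2 * C)) ^ n) * (1 / 2 : ℝ) ^ j) atTop
      (𝓝 ((B * (1 / (2 * C)) ^ n) * 0)) :=
    (tendsto_pow_atTop_nhds_zero_of_lt_one (by norm_num) (by norm_num)).const_mul _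
  rw [mul_zero] at h3
  exact le_antisymm (ge_of_tendsto' h3 h2) (hw n)

namespace Dat

variable {F K : Type} [Field F] [NormedField K] [Algebra F K] {m : ℕ} (D : Dat F K m)

/-- The polynomials that are smaller than all exponentials along a residue class. -/
def SS (N r : ℕ) : Ideal (MvPolynomial (Fin m) F) where
  carrier := {h | ∀ θ : ℝ, 0 < θ → BO θ (cls N r (D.ev h))}
  add_mem' := by
    intro a b ha hb θ hθ
    rw [ev_add, map_add]
    exact (ha θ hθ).add (hb θ hθ)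
  zero_mem' := by
    intro θ _
    have : D.ev 0 = 0 := by
      funext n
      simp [ev]
    rw [this, map_zero]
    exact BO.zero _
  smul_mem' := by
    intro c a ha θ hθ
    rw [smul_eq_mul, ev_mul]
    have h1 : cls N r (D.ev c * D.ev a) = cls N r (D.ev c) * cls N r (D.ev a) := rfl
    rw [h1, ← one_mul θ]
    have h2 := (D.ev_bdd c).cls N r
    rw [one_pow] at h2
    exact h2.mul (ha θ hθ)

theorem mem_SS {N r : ℕ} {h : MvPolynomial (Fin m) F} :
    h ∈ D.SS N r ↔ ∀ θ : ℝ, 0 < θ → BO θ (cls N r (D.ev h)) := Iff.rfl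

theorem van_SS (N r : ℕ) (hN : N ≠ 0) : vanI D.x ≤ D.SS N r := by
  intro h hh θ hθ
  refine bo_eventually hθ (BO.zero θ) ?_
  have h1 := tend_cls N r hN
  filter_upwards [h1.eventually (mem_vanI.1 hh)] with n hn
  simp [ev, hn]

theorem SS_add (N r : ℕ) : D.SS N (r + N) = D.SS N r := by
  ext h
  rw [mem_SS, mem_SS]
  have h1 : cls N (r + N) (D.ev h) = sh (cls N r (D.ev h)) := by
    funext n
    rw [cls_apply, sh_apply, cls_apply]
    congr 1
    ring
  rw [h1]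
  refine ⟨fun hh θ hθ => ?_, fun hh θ hθ => (hh θ hθ).shift⟩
  obtain ⟨C, hC⟩ := hh θ hθ
  refine ⟨max ‖cls N r (D.ev h) 0‖ (C / θ), fun n => ?_⟩
  rcases n with _ | n
  · rw [pow_zero, mul_one]
    exact le_max_left _ _
  · have h2 := hC n
    rw [sh_apply] at h2
    refine h2.trans ?_
    have h3 : C * θ ^ n = C / θ * θ ^ (n + 1) := by
      rw [pow_succ]
      field_simp
    rw [h3]
    exact mul_le_mul_of_nonneg_right (le_max_right _ _) (pow_nonneg hθ.le _)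

theorem ev_cl (h : MvPolynomial (Fin m) F) (n : ℕ) :
    D.ev (D.cl h) n = D.ev D.g n ^ D.dg h * D.ev h (n + 1) := by
  simp only [ev, cl_x, map_mul, map_pow]

theorem cl_SS {N r : ℕ} {h : MvPolynomial (Fin m) F} (hh : h ∈ D.SS N (r + 1)) :
    D.cl h ∈ D.SS N r := by
  intro θ hθ
  have h1 : cls N r (D.ev (D.cl h)) =
      cls N r (D.ev (D.g ^ D.dg h)) * cls N (r + 1) (D.ev h) := by
    funext n
    rw [Pi.mul_apply, cls_apply, ev_cl, cls_apply, cls_apply]
    congr 1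
    · simp [ev]
  rw [h1, ← one_mul θ]
  have h2 := (D.ev_bdd (D.g ^ D.dg h)).cls N r
  rw [one_pow] at h2
  exact h2.mul (hh θ hθ)

/-- the image in the truncated ring -/
noncomputable def U (N k r : ℕ) : Submodule F (MvPolynomial (Fin m) F ⧸ D.J k) :=
  Submodule.map (Ideal.Quotient.mkₐ F (D.J k)).toLinearMap ((D.SS N r).restrictScalars F)

theorem T_U (N k r : ℕ) : Submodule.map (D.T k).toLinearMap (D.U N k (r + 1)) ≤ D.U N k r := by
  rintro _ ⟨_, ⟨h, hh, rfl⟩, rfl⟩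
  refine ⟨D.G k ^ D.dg h * D.cl h, Ideal.mul_mem_left _ _ (D.cl_SS hh), ?_⟩
  exact (D.T_mk k h).symm

theorem T_U_eq (N : ℕ) (hN : N ≠ 0) (k : ℕ) (hT : Function.Injective (D.T k)) (r : ℕ) :
    Submodule.map (D.T k).toLinearMap (D.U N k (r + 1)) = D.U N k r := by
  have hinj : Function.Injective (D.T k).toLinearMap := hT
  have h1 : ∀ r, Module.finrank F (Submodule.map (D.T k).toLinearMap (D.U N k r)) =
      Module.finrank F (D.U N k r) := fun r =>
    (Submodule.equivMapOfInjective (D.T k).toLinearMap hinj (D.U N k r)).finrank_eq.symm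
  have h2 : ∀ r, Module.finrank F (D.U N k (r + 1)) ≤ Module.finrank F (D.U N k r) := by
    intro r
    rw [← h1]
    exact Submodule.finrank_mono (D.T_U N k r)
  have h3 : ∀ j r, Module.finrank F (D.U N k (r + j)) ≤ Module.finrank F (D.U N k r) := by
    intro j
    induction j with
    | zero => intro r; rfl
    | succ j ih => intro r; exact (h2 _).trans (ih r)
  apply Submodule.eq_of_le_of_finrank_le (D.T_U N k r)
  rw [h1]
  have h4 : D.U N k (r + N) = D.U N k r := by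
    unfold U
    rw [SS_add]
  rw [← h4]
  have h5 := h3 (N - 1) (r + 1)
  rwa [show r + 1 + (N - 1) = r + N by omega] at h5

/-- generators -/
noncomputable def gen (I : Ideal (MvPolynomial (Fin m) F)) : Finset (MvPolynomial (Fin m) F) :=
  ((isNoetherianRing_iff_ideal_fg _).1 inferInstance I).choose

theorem gen_spec (I : Ideal (MvPolynomial (Fin m) F)) :
    Ideal.span (gen I : Set (MvPolynomial (Fin m) F)) = I :=
  ((isNoetherianRing_iff_ideal_fg _).1 inferInstance I).choose_spec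

theorem local_mem (N : ℕ) (hN : N ≠ 0) (hT : ∀ k, Function.Injective (D.T k)) (r : ℕ)
    {q : MvPolynomial (Fin m) F} (hq : q ∈ D.SS N r) :
    ∃ t ∈ mxi D.p, (1 - t) * q ∈
      Ideal.span (D.cl '' (gen (D.SS N (r + 1)) : Set (MvPolynomial (Fin m) F))) ⊔ vanI D.x := by
  set a := Ideal.span (D.cl '' (gen (D.SS N (r + 1)) : Set (MvPolynomial (Fin m) F))) with ha
  refine krull (mxi D.p) (a ⊔ vanI D.x) q fun k => ?_
  have h1 : Ideal.Quotient.mk (D.J k) q ∈ D.U N k r := ⟨q, hq, rfl⟩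
  rw [← D.T_U_eq N hN k (hT k) r] at h1
  obtain ⟨_, ⟨h, hh, rfl⟩, hTq⟩ := h1
  have h2 : D.SS N (r + 1) ≤
      (a.map (Ideal.Quotient.mk (D.J k))).comap ((D.T k : _ →+* _).comp
        (Ideal.Quotient.mk (D.J k))) := by
    rw [← gen_spec (D.SS N (r + 1)), Ideal.span_le]
    intro y hy
    show D.T k (Ideal.Quotient.mk (D.J k) y) ∈ a.map (Ideal.Quotient.mk (D.J k))
    rw [T_mk]
    refine Ideal.mem_map_of_mem _ (Ideal.mul_mem_left _ _ (Ideal.subset_span ⟨y, hy, rfl⟩))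
  have h3 : D.T k (Ideal.Quotient.mk (D.J k) h) ∈ a.map (Ideal.Quotient.mk (D.J k)) := h2 hh
  have h4 : D.T k (Ideal.Quotient.mk (D.J k) h) = Ideal.Quotient.mk (D.J k) q := hTq
  rw [h4, ← Ideal.mem_comap, Ideal.comap_map_of_surjective' _ Ideal.Quotient.mk_surjective,
    Ideal.mk_ker] at h3
  refine (sup_le (le_sup_left.trans le_sup_left) ?_ :
    a ⊔ D.J k ≤ a ⊔ vanI D.x ⊔ mxi D.p ^ k) h3
  exact sup_le le_sup_right (le_sup_right.trans le_sup_left)

/-- the size of the generators -/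
noncomputable def H (I : Ideal (MvPolynomial (Fin m) F)) (n : ℕ) : ℝ :=
  ∑ h ∈ gen I, ‖D.ev h n‖

theorem H_nonneg (I : Ideal (MvPolynomial (Fin m) F)) (n : ℕ) : 0 ≤ D.H I n :=
  Finset.sum_nonneg fun _ _ => norm_nonneg _

theorem bdd (h : MvPolynomial (Fin m) F) : ∃ C : ℝ, 0 ≤ C ∧ ∀ n, ‖D.ev h n‖ ≤ C := by
  obtain ⟨C, hC⟩ := D.ev_bdd h
  have h1 : ∀ n, ‖D.ev h n‖ ≤ C := fun n => by simpa using hC n
  exact ⟨C, (norm_nonneg _).trans (h1 0), h1⟩

theorem span_bound (I : Ideal (MvPolynomial (Fin m) F)) {y : MvPolynomial (Fin m) F}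
    (hy : y ∈ Ideal.span (D.cl '' (gen I : Set (MvPolynomial (Fin m) F)))) :
    ∃ C : ℝ, 0 ≤ C ∧ ∀ n, ‖D.ev y n‖ ≤ C * D.H I (n + 1) := by
  refine Submodule.span_induction (fun y hy => ?_) ?_ (fun y z _ _ hy hz => ?_)
    (fun c y _ hy => ?_) hy
  · obtain ⟨h, hh, rfl⟩ := hy
    obtain ⟨C, hC0, hC⟩ := D.bdd (D.g ^ D.dg h)
    refine ⟨C, hC0, fun n => ?_⟩
    rw [ev_cl, norm_mul]
    have h1 : ‖D.ev D.g n ^ D.dg h‖ ≤ C := by
      have := hC n
      simpa [ev] using this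
    have h2 : ‖D.ev h (n + 1)‖ ≤ D.H I (n + 1) :=
      Finset.single_le_sum (f := fun h => ‖D.ev h (n + 1)‖) (fun _ _ => norm_nonneg _) hh
    exact mul_le_mul h1 h2 (norm_nonneg _) hC0
  · refine ⟨0, le_rfl, fun n => ?_⟩
    simp [ev]
  · obtain ⟨C, hC0, hC⟩ := hy
    obtain ⟨C', hC0', hC'⟩ := hz
    refine ⟨C + C', add_nonneg hC0 hC0', fun n => ?_⟩
    rw [ev_add, Pi.add_apply, add_mul]
    exact (norm_add_le _ _).trans (add_le_add (hC n) (hC' n))
  · obtain ⟨C, hC0, hC⟩ := hy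
    obtain ⟨B, hB0, hB⟩ := D.bdd c
    refine ⟨B * C, mul_nonneg hB0 hC0, fun n => ?_⟩
    rw [smul_eq_mul, ev_mul, Pi.mul_apply, norm_mul, mul_assoc]
    exact mul_le_mul (hB n) (hC n) (norm_nonneg _) hB0

theorem one_step (N : ℕ) (hN : N ≠ 0) (hT : ∀ k, Function.Injective (D.T k)) (r : ℕ)
    {q : MvPolynomial (Fin m) F} (hq : q ∈ D.SS N r) :
    ∃ C : ℝ, 0 ≤ C ∧ ∀ᶠ n in atTop, ‖D.ev q n‖ ≤ C * D.H (D.SS N (r + 1)) (n + 1) := by
  obtain ⟨t, ht, htq⟩ := D.local_mem N hN hT r hq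
  obtain ⟨y, hy, z, hz, hyz⟩ := Submodule.mem_sup.1 htq
  obtain ⟨C, hC0, hC⟩ := D.span_bound _ hy
  refine ⟨2 * C, by positivity, ?_⟩
  -- the unit
  have h1 : Tendsto (fun n => ‖D.ev t n‖) atTop (𝓝 0) := by
    have h2 := D.ev_near t
    rw [mem_mxi.1 ht] at h2
    obtain ⟨B, hB⟩ := h2
    have h3 : Tendsto (fun n : ℕ => B * D.c ^ n) atTop (𝓝 (B * 0)) :=
      (tendsto_pow_atTop_nhds_zero_of_lt_one D.c_pos.le D.c_lt).const_mul B
    rw [mul_zero] at h3
    refine squeeze_zero (fun n => norm_nonneg _) (fun n => ?_) h3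
    have := hB n
    simpa [ev] using this
  filter_upwards [h1.eventually_lt_const (by norm_num : (0 : ℝ) < 1 / 2), mem_vanI.1 hz]
    with n hn1 hn2
  have h4 : D.ev ((1 - t) * q) n = D.ev y n := by
    rw [← hyz, ev_add, Pi.add_apply]
    have : D.ev z n = 0 := by simp [ev, hn2]
    rw [this, add_zero]
  have h5 : (1 - D.ev t n) * D.ev q n = D.ev y n := by
    rw [← h4, ev_mul, Pi.mul_apply, ev_sub, Pi.sub_apply]
    simp [ev]
  have h6 : 1 / 2 ≤ ‖1 - D.ev t n‖ := by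
    have h7 := norm_sub_norm_le (1 : K) (D.ev t n)
    rw [norm_one] at h7
    linarith
  have h8 : ‖1 - D.ev t n‖ * ‖D.ev q n‖ ≤ C * D.H (D.SS N (r + 1)) (n + 1) := by
    rw [← norm_mul, h5]
    exact hC n
  have h9 : 1 / 2 * ‖D.ev q n‖ ≤ ‖1 - D.ev t n‖ * ‖D.ev q n‖ :=
    mul_le_mul_of_nonneg_right h6 (norm_nonneg _)
  linarith

theorem H_step (N : ℕ) (hN : N ≠ 0) (hT : ∀ k, Function.Injective (D.T k)) (r : ℕ) :
    ∃ C : ℝ, 0 ≤ C ∧ ∀ᶠ n in atTop,
      D.H (D.SS N r) n ≤ C * D.H (D.SS N (r + 1)) (n + 1) := by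
  classical
  have h1 : ∀ h ∈ gen (D.SS N r), h ∈ D.SS N r := by
    intro h hh
    rw [← gen_spec (D.SS N r)]
    exact Ideal.subset_span hh
  have h2 : ∀ h : MvPolynomial (Fin m) F, ∃ C : ℝ, 0 ≤ C ∧ (h ∈ gen (D.SS N r) →
      ∀ᶠ n in atTop, ‖D.ev h n‖ ≤ C * D.H (D.SS N (r + 1)) (n + 1)) := by
    intro h
    by_cases hh : h ∈ gen (D.SS N r)
    · obtain ⟨C, hC0, hC⟩ := D.one_step N hN hT r (h1 h hh)
      exact ⟨C, hC0, fun _ => hC⟩
    · exact ⟨0, le_rfl, fun h' => absurd h' hh⟩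
  choose C hC0 hC using h2
  refine ⟨∑ h ∈ gen (D.SS N r), C h, Finset.sum_nonneg fun h _ => hC0 h, ?_⟩
  have h3 : ∀ᶠ n in atTop, ∀ h ∈ gen (D.SS N r),
      ‖D.ev h n‖ ≤ C h * D.H (D.SS N (r + 1)) (n + 1) :=
    (Filter.eventually_all_finset _).2 fun h hh => hC h hh
  filter_upwards [h3] with n hn
  rw [Finset.sum_mul]
  exact Finset.sum_le_sum hn

theorem H_steps (N : ℕ) (hN : N ≠ 0) (hT : ∀ k, Function.Injective (D.T k)) (r j : ℕ) :
    ∃ C : ℝ, 0 ≤ C ∧ ∀ᶠ n in atTop,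
      D.H (D.SS N r) n ≤ C * D.H (D.SS N (r + j)) (n + j) := by
  induction j with
  | zero => exact ⟨1, zero_le_one, Eventually.of_forall fun n => by simp⟩
  | succ j ih =>
    obtain ⟨C, hC0, hC⟩ := ih
    obtain ⟨C', hC0', hC'⟩ := D.H_step N hN hT (r + j)
    refine ⟨C * C', mul_nonneg hC0 hC0', ?_⟩
    filter_upwards [hC, (tendsto_add_atTop_nat j).eventually hC'] with n h1 h2
    refine h1.trans ?_
    rw [mul_assoc]
    exact mul_le_mul_of_nonneg_left h2 hC0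

theorem SS_zero (N : ℕ) (hN : N ≠ 0) (hT : ∀ k, Function.Injective (D.T k)) (r : ℕ) :
    ∃ n₀ : ℕ, ∀ h ∈ D.SS N r, ∀ n, n₀ ≤ n → eval (D.x (N * n + r)) h = 0 := by
  obtain ⟨C, hC0, hC⟩ := D.H_steps N hN hT r N
  rw [SS_add] at hC
  have ht := tend_cls N r hN
  obtain ⟨n₀, hn₀⟩ := eventually_atTop.1 (ht.eventually hC)
  have h1 : ∀ n, n₀ ≤ n → D.H (D.SS N r) (N * n + r) = 0 := by
    refine small_zero (w := fun n => D.H (D.SS N r) (N * n + r)) (C := max C 1)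
      (fun n => D.H_nonneg _ _) (le_max_right _ _) (fun n hn => ?_) (fun θ hθ => ?_)
    · have h2 := hn₀ n hn
      have h3 : N * n + r + N = N * (n + 1) + r := by ring
      rw [h3] at h2
      exact h2.trans (mul_le_mul_of_nonneg_right (le_max_left _ _) (D.H_nonneg _ _))
    · have h2 : ∀ h ∈ gen (D.SS N r), BO θ (cls N r (D.ev h)) := by
        intro h hh
        have h3 : h ∈ D.SS N r := by
          rw [← gen_spec (D.SS N r)]
          exact Ideal.subset_span hh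
        exact h3 θ hθ
      choose! B hB using h2
      refine ⟨∑ h ∈ gen (D.SS N r), B h, fun n => ?_⟩
      rw [Finset.sum_mul]
      exact Finset.sum_le_sum fun h hh => hB h hh n
  refine ⟨n₀, fun h hh n hn => ?_⟩
  have h2 : ∀ g ∈ gen (D.SS N r), eval (D.x (N * n + r)) g = 0 := by
    intro g hg
    have h3 := (Finset.sum_eq_zero_iff_of_nonneg (fun _ _ => norm_nonneg _)).1 (h1 n hn) g hg
    rw [norm_eq_zero] at h3
    exact FaithfulSMul.algebraMap_injective F K (by rw [map_zero]; exact h3)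
  have h3 : D.SS N r ≤ RingHom.ker (eval (D.x (N * n + r))) := by
    rw [← gen_spec (D.SS N r), Ideal.span_le]
    intro g hg
    exact RingHom.mem_ker.2 (h2 g hg)
  exact RingHom.mem_ker.1 (h3 hh)

end Dat

end Pool.Agent.N137.AO
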