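import Pool.Agent.N137.AO.Seq

set_option autoImplicit false

/-!
# Absolute values that are not `p`-adic: distinct roots with distinct absolute values
-/

namespace Pool.Agent.N137.AO

open Polynomial Filter Topology

variable {K : Type*} [NormedField K]

theorem norm_sub_nat (hint : ∀ n : ℕ, n ≠ 0 → 1 ≤ ‖(n : K)‖) {n m : ℕ} (h : n ≠ m) :
    1 ≤ ‖(n : K) - m‖ := by
  rcases lt_or_gt_of_ne h with h | h
  · have h1 := hint (m - n) (by omega)
    rw [Nat.cast_sub h.le] at h1
    rwa [← norm_neg, neg_sub]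
  · have h1 := hint (n - m) (by omega)
    rwa [Nat.cast_sub h.le] at h1

theorem poly_low (hint : ∀ n : ℕ, n ≠ 0 → 1 ≤ ‖(n : K)‖) (D : ℕ) : ∀ Q : K[X], Q ≠ 0 →
    Q.natDegree = D → {n : ℕ | ‖Q.eval (n : K)‖ < ‖Q.leadingCoeff‖ / 2 ^ D}.Finite := by
  induction D with
  | zero =>
    intro Q hQ hD
    convert Set.finite_empty
    rw [Set.eq_empty_iff_forall_notMem]
    intro n hn
    rw [Set.mem_setOf_eq, pow_zero, div_one, eq_C_of_natDegree_eq_zero hD, eval_C,
      leadingCoeff_C] at hn
    exact lt_irrefl _ hn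
  | succ D ih =>
    intro Q hQ hD
    rcases Set.eq_empty_or_nonempty {n : ℕ | ‖Q.eval (n : K)‖ < ‖Q.leadingCoeff‖ / 2 ^ (D + 1)}
      with h | ⟨m, hm⟩
    · rw [h]
      exact Set.finite_empty
    rw [Set.mem_setOf_eq] at hm
    set q := Q /ₘ (X - C (m : K)) with hq
    have hdiv : Q = C (Q.eval (m : K)) + (X - C (m : K)) * q := by
      conv_lhs => rw [← modByMonic_add_div Q (X - C (m : K))]
      rw [modByMonic_X_sub_C_eq_C_eval]
    have hdeg : q.natDegree = D := by
      rw [hq, natDegree_divByMonic _ (monic_X_sub_C _), natDegree_X_sub_C, hD]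
      omega
    have hlc : q.leadingCoeff = Q.leadingCoeff := by
      rw [hq]
      refine leadingCoeff_divByMonic_of_monic (monic_X_sub_C _) ?_
      rw [degree_X_sub_C, degree_eq_natDegree hQ, hD]
      exact_mod_cast Nat.le_add_left 1 D
    have hq0 : q ≠ 0 := by
      intro h
      rw [h, leadingCoeff_zero] at hlc
      exact hQ (leadingCoeff_eq_zero.1 hlc.symm)
    refine ((ih q hq0 hdeg).union (Set.finite_singleton m)).subset fun n hn => ?_
    rw [Set.mem_setOf_eq] at hn
    by_cases hnm : n = m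
    · right
      exact hnm
    left
    rw [Set.mem_setOf_eq, hlc]
    by_contra hcon
    rw [not_lt] at hcon
    have h1 := norm_sub_nat hint hnm
    have h2 : (n : K) * 1 = n := mul_one _
    have h3 : ((n : K) - m) * q.eval (n : K) = Q.eval (n : K) - Q.eval (m : K) := by
      conv_rhs => rw [hdiv]
      simp
    have h4 : ‖q.eval (n : K)‖ ≤ ‖((n : K) - m) * q.eval (n : K)‖ := by
      rw [norm_mul]
      exact le_mul_of_one_le_left (norm_nonneg _) h1
    rw [h3] at h4
    have h5 := norm_sub_le (Q.eval (n : K)) (Q.eval (m : K))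
    have h6 : ‖Q.leadingCoeff‖ / 2 ^ D = ‖Q.leadingCoeff‖ / 2 ^ (D + 1) +
        ‖Q.leadingCoeff‖ / 2 ^ (D + 1) := by
      rw [pow_succ]
      ring
    linarith

/-- a sequence whose `a`-th difference vanishes is a polynomial -/
theorem fwd_poly [CharZero K] (q : ℕ → K) (a : ℕ) (h : (fwdDiff 1)^[a] q = 0) :
    ∃ Q : K[X], ∀ n : ℕ, q n = Q.eval (n : K) := by
  refine ⟨∑ k ∈ Finset.range a, C ((fwdDiff 1)^[k] q 0 / (k.factorial : K)) *
    descPochhammer K k, fun n => ?_⟩
  have hz : ∀ k, a ≤ k → (fwdDiff 1)^[k] q = 0 := by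
    intro k hk
    obtain ⟨j, rfl⟩ := Nat.exists_eq_add_of_le hk
    rw [add_comm, Function.iterate_add_apply, h]
    clear h hk
    induction j with
    | zero => rfl
    | succ j ih =>
      rw [Function.iterate_succ_apply', ih]
      funext n
      simp [fwdDiff]
  have h1 := shift_eq_sum_fwdDiff_iter (h := 1) q n 0
  simp only [smul_eq_mul, mul_one, zero_add] at h1
  rw [h1, eval_finset_sum]
  have h2 : ∀ k, n.choose k • (fwdDiff 1)^[k] q 0 =
      eval (n : K) (C ((fwdDiff 1)^[k] q 0 / (k.factorial : K)) * descPochhammer K k) := by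
    intro k
    rw [eval_mul, eval_C, descPochhammer_eval_eq_descFactorial,
      Nat.descFactorial_eq_factorial_mul_choose, Nat.cast_mul, nsmul_eq_mul]
    have : (k.factorial : K) ≠ 0 := by exact_mod_cast k.factorial_ne_zero
    field_simp
  simp only [h2]
  set F : ℕ → K := fun k =>
    eval (n : K) (C ((fwdDiff 1)^[k] q 0 / (k.factorial : K)) * descPochhammer K k) with hF
  have hFa : ∀ k, a ≤ k → F k = 0 := by
    intro k hk
    simp only [hF, hz k hk, Pi.zero_apply, zero_div, map_zero, zero_mul, eval_zero]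
  have hFn : ∀ k, n < k → F k = 0 := by
    intro k hk
    simp only [hF]
    rw [← h2, Nat.choose_eq_zero_of_lt hk, zero_smul]
  have e1 : ∑ k ∈ Finset.range (n + 1), F k = ∑ k ∈ Finset.range (n + 1 + a), F k := by
    refine Finset.sum_subset (fun k hk => ?_) fun k _ hk => hFn k ?_
    · rw [Finset.mem_range] at hk ⊢
      omega
    · rw [Finset.mem_range] at hk
      omega
  have e2 : ∑ k ∈ Finset.range a, F k = ∑ k ∈ Finset.range (n + 1 + a), F k := by
    refine Finset.sum_subset (fun k hk => ?_) fun k _ hk => hFa k ?_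
    · rw [Finset.mem_range] at hk ⊢
      omega
    · rw [Finset.mem_range] at hk
      omega
  rw [e1, e2]

theorem goodA [CharZero K] (hint : ∀ n : ℕ, n ≠ 0 → 1 ≤ ‖(n : K)‖) (R : Set K)
    (hR : ∀ a ∈ R, ∀ b ∈ R, ‖a‖ = ‖b‖ → a = b) : Good R := by
  intro ρ hρ t ht e he he0
  -- all elements of `t` are equal
  rcases Multiset.empty_or_exists_mem t with h | ⟨μ, hμ⟩
  · rw [h, pol_zero, map_one, Module.End.one_apply] at he
    exact absurd he he0
  have hrep : t = Multiset.replicate t.card μ := by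
    rw [Multiset.eq_replicate]
    refine ⟨rfl, fun ν hν => ?_⟩
    exact hR ν (ht ν hν).1 μ (ht μ hμ).1 ((ht ν hν).2.trans (ht μ hμ).2.symm)
  have hμρ : ‖μ‖ = ρ := (ht μ hμ).2
  have hμ0 : μ ≠ 0 := by
    rw [← norm_pos_iff, hμρ]
    exact hρ
  set a := t.card with ha
  have hpol : pol t = (X - C μ) ^ a := by
    rw [hrep, pol, Multiset.map_replicate, Multiset.prod_replicate]
  set q : ℕ → K := fun n => e n / μ ^ n with hq
  have hdiff : ∀ k : ℕ, ∀ n, (aeval (sh : Module.End K (ℕ → K)) ((X - C μ) ^ k) e) n =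
      μ ^ (n + k) * (fwdDiff 1)^[k] q n := by
    intro k
    induction k with
    | zero =>
      intro n
      simp only [pow_zero, map_one, Module.End.one_apply, add_zero, Function.iterate_zero, id, hq]
      field_simp
    | succ k ih =>
      intro n
      rw [pow_succ', map_mul, Module.End.mul_apply, aeval_lin, Function.iterate_succ_apply']
      simp only [ih, fwdDiff]
      ring
  have hz : (fwdDiff 1)^[a] q = 0 := by
    funext n
    have h1 := hdiff a n
    rw [← hpol, he] at h1
    simp only [Pi.zero_apply] at h1 ⊢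
    rcases mul_eq_zero.1 h1.symm with h | h
    · exact absurd h (pow_ne_zero _ hμ0)
    · exact h
  obtain ⟨Q, hQ⟩ := fwd_poly q a hz
  have heq : ∀ n, e n = μ ^ n * Q.eval (n : K) := by
    intro n
    rw [← hQ, hq]
    field_simp
  have hQ0 : Q ≠ 0 := by
    rintro rfl
    apply he0
    funext n
    rw [heq, eval_zero, mul_zero]
    rfl
  refine ⟨‖Q.leadingCoeff‖ / 2 ^ Q.natDegree, ?_, ?_⟩
  · have := norm_pos_iff.2 (leadingCoeff_ne_zero.2 hQ0)
    positivity
  · have hfin := poly_low hint Q.natDegree Q hQ0 rfl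
    have hev : ∀ᶠ n : ℕ in atTop,
        ¬ ‖Q.eval (n : K)‖ < ‖Q.leadingCoeff‖ / 2 ^ Q.natDegree := by
      rw [← Nat.cofinite_eq_atTop]
      exact hfin.compl_mem_cofinite
    filter_upwards [hev] with n hn
    rw [not_lt] at hn
    rw [heq, norm_mul, norm_pow, hμρ, mul_comm]
    exact mul_le_mul_of_nonneg_left hn (by positivity)

end Pool.Agent.N137.AO
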