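import Pool.Agent.N137.AO.Main
import Pool.Agent.N137.AO.GoodA
import Pool.Agent.N137.AO.Def

set_option autoImplicit false

/-!
# Attracted orbits, final form
-/

namespace Pool.Agent.N137.AO

open MvPolynomial Filter Topology

/-- shifting -/
theorem ap_shift (N n₁ : ℕ) (Z Z' : Set ℕ) (hZ : ∀ n, n ∈ Z' ↔ n + n₁ ∈ Z)
    (h : ∃ T : Finset (ℕ × ℕ), (∀ t ∈ T, t.2 = 0 ∨ t.2 = N) ∧
      Z' = {n : ℕ | ∃ t ∈ T, ∃ k : ℕ, n = t.1 + t.2 * k}) :
    ∃ T : Finset (ℕ × ℕ), (∀ t ∈ T, t.2 = 0 ∨ t.2 = N) ∧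
      Z = {n : ℕ | ∃ t ∈ T, ∃ k : ℕ, n = t.1 + t.2 * k} := by
  classical
  obtain ⟨T, hT, hTZ⟩ := h
  refine ⟨((Finset.range n₁).filter (· ∈ Z)).image (fun z => (z, 0)) ∪
    T.image (fun t => (t.1 + n₁, t.2)), ?_, ?_⟩
  · intro t ht
    rcases Finset.mem_union.1 ht with ht | ht
    · obtain ⟨z, _, rfl⟩ := Finset.mem_image.1 ht
      exact Or.inl rfl
    · obtain ⟨z, hz, rfl⟩ := Finset.mem_image.1 ht
      exact hT z hz
  · ext n
    simp only [Set.mem_setOf_eq]
    constructor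
    · intro hn
      by_cases hlt : n < n₁
      · refine ⟨(n, 0), Finset.mem_union_left _ (Finset.mem_image.2 ⟨n, ?_, rfl⟩), 0, by simp⟩
        exact Finset.mem_filter.2 ⟨Finset.mem_range.2 hlt, hn⟩
      · obtain ⟨j, rfl⟩ := Nat.exists_eq_add_of_le (not_lt.1 hlt)
        have h1 : j ∈ Z' := by
          rw [hZ, add_comm]
          exact hn
        rw [hTZ] at h1
        obtain ⟨t, ht, k, hk⟩ := h1
        refine ⟨(t.1 + n₁, t.2), Finset.mem_union_right _ (Finset.mem_image.2 ⟨t, ht, rfl⟩), k, ?_⟩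
        show n₁ + j = t.1 + n₁ + t.2 * k
        omega
    · rintro ⟨t, ht, k, rfl⟩
      rcases Finset.mem_union.1 ht with ht | ht
      · obtain ⟨z, hz, rfl⟩ := Finset.mem_image.1 ht
        rw [Finset.mem_filter] at hz
        simpa using hz.2
      · obtain ⟨s, hs, rfl⟩ := Finset.mem_image.1 ht
        have h1 : s.1 + s.2 * k ∈ Z' := by
          rw [hTZ]
          exact ⟨s, hs, k, rfl⟩
        rw [hZ] at h1
        have e : s.1 + n₁ + s.2 * k = s.1 + s.2 * k + n₁ := by ring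
        show s.1 + n₁ + s.2 * k ∈ Z
        rw [e]
        exact h1

section

variable (v : AbsoluteValue ℂ ℝ)

/-- the embedding in the completion -/
noncomputable def emb : ℂ →+* v.Completion :=
  (UniformSpace.Completion.coeRingHom (α := WithAbs v)).comp (WithAbs.equiv v).symm.toRingHom

theorem norm_emb (z : ℂ) : ‖emb v z‖ = v z := by
  show ‖((((WithAbs.equiv v).symm z : WithAbs v)) : v.Completion)‖ = v z
  rw [UniformSpace.Completion.norm_coe]
  rfl

theorem emb_eval {m : ℕ} (y : Fin m → ℂ) (h : MvPolynomial (Fin m) ℂ) :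
    emb v (eval y h) = eval (fun i => emb v (y i)) (MvPolynomial.map (emb v) h) := by
  induction h using MvPolynomial.induction_on with
  | C a => simp
  | add a b ha hb => rw [map_add, map_add, map_add, map_add, ha, hb]
  | mul_X a i ha => rw [map_mul, map_mul, map_mul, map_mul, ha]; simp

/-- Data from an orbit. -/
theorem exists_dat {m : ℕ} (f : Fin m → MvPolynomial (Fin m) ℂ) (g : MvPolynomial (Fin m) ℂ)
    (x : ℕ → Fin m → ℂ) (p : Fin m → ℂ) (C c : ℝ) (gp : eval p g ≠ 0)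
    (hstep : ∀ᶠ n in atTop, ∀ i, x (n + 1) i * eval (x n) g = eval (x n) (f i))
    (hc0 : 0 < c) (hc : c < 1)
    (hconv : ∀ᶠ n in atTop, ∀ i, v (x n i - p i) ≤ C * c ^ n) :
    let _ : Algebra ℂ v.Completion := (emb v).toAlgebra
    ∃ (D : Dat ℂ v.Completion m) (n₁ : ℕ), D.f = f ∧ D.g = g ∧ D.p = p ∧
      ∀ n, D.x n = x (n + n₁) := by
  let _ : Algebra ℂ v.Completion := (emb v).toAlgebra
  have hmap : ∀ z : ℂ, algebraMap ℂ v.Completion z = emb v z := fun z => rfl
  have hx : Tendsto (fun n => fun i => emb v (x n i)) atTop (𝓝 (fun i => emb v (p i))) := by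
    refine tendsto_pi_nhds.2 fun i => ?_
    rw [tendsto_iff_norm_sub_tendsto_zero]
    have h3 : Tendsto (fun n : ℕ => C * c ^ n) atTop (𝓝 (C * 0)) :=
      (tendsto_pow_atTop_nhds_zero_of_lt_one hc0.le hc).const_mul C
    rw [mul_zero] at h3
    refine squeeze_zero' (Eventually.of_forall fun n => norm_nonneg _) ?_ h3
    filter_upwards [hconv] with n hn
    rw [← map_sub, norm_emb]
    exact hn i
  have hcont : ∀ h, Tendsto (fun n => emb v (eval (x n) h)) atTop (𝓝 (emb v (eval p h))) := by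
    intro h
    simp only [emb_eval]
    exact ((MvPolynomial.continuous_eval (MvPolynomial.map (emb v) h)).tendsto _).comp hx
  have hinj : Function.Injective (emb v) := (emb v).injective
  have hg : ∀ᶠ n in atTop, eval (x n) g ≠ 0 := by
    have h1 : emb v (eval p g) ≠ 0 := by
      rw [Ne, map_eq_zero]
      exact gp
    filter_upwards [(hcont g).eventually_ne h1] with n hn h2
    apply hn
    rw [h2, map_zero]
  have hfp : ∀ i, p i * eval p g = eval p (f i) := by
    intro i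
    apply hinj
    have h1 := hcont (f i)
    have h2 : Tendsto (fun n => emb v (x (n + 1) i) * emb v (eval (x n) g)) atTop
        (𝓝 (emb v (p i) * emb v (eval p g))) :=
      (((tendsto_pi_nhds.1 hx i).comp (tendsto_add_atTop_nat 1))).mul (hcont g)
    have h3 : Tendsto (fun n => emb v (x (n + 1) i) * emb v (eval (x n) g)) atTop
        (𝓝 (emb v (eval p (f i)))) := by
      refine h1.congr' ?_
      filter_upwards [hstep] with n hn
      rw [← map_mul, hn i]
    rw [map_mul]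
    exact tendsto_nhds_unique h2 h3
  obtain ⟨n₁, hn₁⟩ := eventually_atTop.1 ((hstep.and hg).and hconv)
  refine ⟨⟨f, g, fun n => x (n + n₁), p, c, hc0, hc, fun n => ?_, fun n i => ?_, gp, fun i => ?_,
    fun i => ?_⟩, n₁, rfl, rfl, rfl, fun n => rfl⟩
  · exact (hn₁ _ (Nat.le_add_left _ _)).1.2
  · have h1 := hn₁ (n + n₁) (Nat.le_add_left _ _)
    rw [eq_div_iff h1.1.2, ← h1.1.1 i]
    congr 2
    ring
  · rw [eq_div_iff gp]
    exact hfp i
  · refine ⟨C * c ^ n₁, fun n => ?_⟩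
    show ‖emb v (x (n + n₁) i - p i)‖ ≤ _
    rw [norm_emb]
    refine ((hn₁ (n + n₁) (Nat.le_add_left _ _)).2 i).trans_eq ?_
    rw [pow_add]
    ring

theorem final {m : ℕ} (f : Fin m → MvPolynomial (Fin m) ℂ) (g : MvPolynomial (Fin m) ℂ)
    (x : ℕ → Fin m → ℂ) (p : Fin m → ℂ) (C c : ℝ) (gp : eval p g ≠ 0)
    (hstep : ∀ᶠ n in atTop, ∀ i, x (n + 1) i * eval (x n) g = eval (x n) (f i))
    (hc0 : 0 < c) (hc : c < 1)
    (hconv : ∀ᶠ n in atTop, ∀ i, v (x n i - p i) ≤ C * c ^ n)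
    (h0 : (0 : ℂ) ∉ Mult f g x p) (N : ℕ) (hN : N ≠ 0)
    (hR : letI : Algebra ℂ v.Completion := (emb v).toAlgebra
      Good (K := v.Completion) ((fun μ : ℂ => algebraMap ℂ v.Completion μ ^ N) ''
        (Submonoid.closure (Mult f g x p) : Set ℂ)))
    (S : Set (MvPolynomial (Fin m) ℂ)) :
    ∃ T : Finset (ℕ × ℕ), (∀ t ∈ T, t.2 = 0 ∨ t.2 = N) ∧
      {n : ℕ | ∀ h ∈ S, eval (x n) h = 0} = {n : ℕ | ∃ t ∈ T, ∃ k : ℕ, n = t.1 + t.2 * k} := by
  let _ : Algebra ℂ v.Completion := (emb v).toAlgebra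
  obtain ⟨D, n₁, rfl, rfl, rfl, hx⟩ := exists_dat v f g x p C c gp hstep hc0 hc hconv
  have hvan : ∀ h : MvPolynomial (Fin m) ℂ, h ∈ vanI D.x ↔ ∀ᶠ n in atTop, eval (x n) h = 0 := by
    intro h
    rw [mem_vanI]
    simp only [hx]
    rw [eventually_atTop, eventually_atTop]
    constructor
    · rintro ⟨a, ha⟩
      refine ⟨a + n₁, fun b hb => ?_⟩
      have := ha (b - n₁) (by omega)
      rwa [Nat.sub_add_cancel (by omega)] at this
    · rintro ⟨a, ha⟩
      exact ⟨a, fun b hb => ha _ (by omega)⟩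
  have hSpec : D.Spec ⊆ Mult D.f D.g x D.p := by
    rintro μ ⟨w, hw, hw0, hμ⟩
    refine ⟨w, fun h hh => ?_, hw0, ?_⟩
    · have h1 := hw h ((hvan h).2 hh)
      rwa [der_apply] at h1
    · rw [← hμ]
      funext i
      simp only [dF, Dat.L, der_apply, Finset.sum_mul, Finset.mul_sum, ← Finset.sum_sub_distrib,
        Finset.sum_div]
      refine Finset.sum_congr rfl fun j _ => ?_
      ring
  have h0' : (0 : ℂ) ∉ Submonoid.closure (Mult D.f D.g x D.p) := by
    intro h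
    have h1 : Submonoid.closure (Mult D.f D.g x D.p) ≤ nonZeroDivisors ℂ := by
      rw [Submonoid.closure_le]
      intro μ hμ
      refine mem_nonZeroDivisors_of_ne_zero ?_
      rintro rfl
      exact h0 hμ
    exact nonZeroDivisors.ne_zero (h1 h) rfl
  have h1 := D.main (Submonoid.closure (Mult D.f D.g x D.p))
    (hSpec.trans Submonoid.subset_closure) h0' N hN hR S
  refine ap_shift N n₁ _ _ (fun n => ?_) h1
  simp only [Set.mem_setOf_eq, hx]

/-- Attracted orbits, no two elements of the same size. -/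
theorem final_A (hv : ∀ n : ℕ, n ≠ 0 → 1 ≤ v n) {m : ℕ} (f : Fin m → MvPolynomial (Fin m) ℂ)
    (g : MvPolynomial (Fin m) ℂ) (x : ℕ → Fin m → ℂ) (p : Fin m → ℂ) (C c : ℝ)
    (gp : eval p g ≠ 0)
    (hstep : ∀ᶠ n in atTop, ∀ i, x (n + 1) i * eval (x n) g = eval (x n) (f i))
    (hc0 : 0 < c) (hc : c < 1)
    (hconv : ∀ᶠ n in atTop, ∀ i, v (x n i - p i) ≤ C * c ^ n)
    (h0 : (0 : ℂ) ∉ Mult f g x p) (N : ℕ) (hN : N ≠ 0)
    (hR : ∀ a ∈ Submonoid.closure (Mult f g x p), ∀ b ∈ Submonoid.closure (Mult f g x p),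
      v a = v b → a ^ N = b ^ N)
    (S : Set (MvPolynomial (Fin m) ℂ)) :
    ∃ T : Finset (ℕ × ℕ), (∀ t ∈ T, t.2 = 0 ∨ t.2 = N) ∧
      {n : ℕ | ∀ h ∈ S, eval (x n) h = 0} = {n : ℕ | ∃ t ∈ T, ∃ k : ℕ, n = t.1 + t.2 * k} := by
  refine final v f g x p C c gp hstep hc0 hc hconv h0 N hN ?_ S
  let _ : Algebra ℂ v.Completion := (emb v).toAlgebra
  have hmap : ∀ z : ℂ, algebraMap ℂ v.Completion z = emb v z := fun z => rfl
  have : CharZero v.Completion := charZero_of_injective_algebraMap (emb v).injective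
  refine goodA (fun n hn => ?_) _ ?_
  · rw [← map_natCast (emb v) n, norm_emb]
    exact hv n hn
  · rintro _ ⟨a, ha, rfl⟩ _ ⟨b, hb, rfl⟩ hab
    simp only [hmap, norm_pow, norm_emb] at hab ⊢
    have h1 : v a = v b := (pow_left_inj₀ (v.nonneg a) (v.nonneg b) hN).1 hab
    rw [← map_pow, ← map_pow, hR a ha b hb h1]

end

end Pool.Agent.N137.AO
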