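import Pool.Agent.N137.AO.Nd

set_option autoImplicit false

/-!
# Residue characteristic zero
-/

namespace Pool.Agent.N137.AO

open Filter Topology Cardinal

/-- A field of characteristic zero which is not larger than the continuum embeds in `ℂ`. -/
theorem exists_emb (k : Type) [Field k] [CharZero k] (h : #k ≤ 𝔠) : Nonempty (k →+* ℂ) := by
  let A := MvPolynomial ℂ k
  let B := FractionRing A
  let L := AlgebraicClosure B
  have : CharZero B := charZero_of_injective_algebraMap (IsFractionRing.injective A B)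
  have : CharZero L := charZero_of_injective_algebraMap (algebraMap B L).injective
  have h1 : #L ≤ 𝔠 := by
    have h2 : #L ≤ max #B ℵ₀ := Algebra.IsAlgebraic.cardinalMk_le_max B L
    have h3 : #B = #A := Cardinal.mk_fractionRing A
    have h4 : #A ≤ max (max #k #ℂ) ℵ₀ := MvPolynomial.cardinalMk_le_max
    refine h2.trans (max_le ?_ aleph0_le_continuum)
    rw [h3]
    refine h4.trans (max_le (max_le h ?_) aleph0_le_continuum)
    rw [mk_complex]
  have h2 : 𝔠 ≤ #L := by
    rw [← mk_complex]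
    refine mk_le_of_injective (f := fun z : ℂ => algebraMap B L (algebraMap A B
      (MvPolynomial.X z))) ?_
    intro z w hzw
    exact MvPolynomial.X_injective (IsFractionRing.injective A B ((algebraMap B L).injective hzw))
  have h3 : #L = #ℂ := by
    rw [mk_complex]
    exact le_antisymm h1 h2
  have h4 : ℵ₀ < #L := by
    rw [h3, mk_complex]
    exact aleph0_lt_continuum
  obtain ⟨ψ⟩ := IsAlgClosed.ringEquiv_of_equiv_of_charZero h4 (Cardinal.eq.1 h3)
  exact ⟨ψ.toRingHom.comp ((algebraMap B L).comp ((algebraMap A B).comp MvPolynomial.C))⟩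

/-- The ring of integers. -/
def oK (K : Type) [NormedField K] [IsUltrametricDist K] : Subring K where
  carrier := {x | ‖x‖ ≤ 1}
  mul_mem' := by
    intro a b ha hb
    simp only [Set.mem_ofPred_eq] at ha hb ⊢
    rw [norm_mul]
    exact mul_le_one₀ ha (norm_nonneg _) hb
  one_mem' := by simp
  add_mem' := by
    intro a b ha hb
    exact (IsUltrametricDist.norm_add_le_max a b).trans (max_le ha hb)
  zero_mem' := by simp
  neg_mem' := by
    intro a ha
    simpa using ha

theorem mem_oK {K : Type} [NormedField K] [IsUltrametricDist K] {x : K} :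
    x ∈ oK K ↔ ‖x‖ ≤ 1 := Iff.rfl

/-- The maximal ideal. -/
def mK (K : Type) [NormedField K] [IsUltrametricDist K] : Ideal (oK K) where
  carrier := {x | ‖(x : K)‖ < 1}
  add_mem' := by
    intro a b ha hb
    exact (IsUltrametricDist.norm_add_le_max (a : K) b).trans_lt (max_lt ha hb)
  zero_mem' := by simp
  smul_mem' := by
    intro c x hx
    simp only [Set.mem_ofPred_eq, smul_eq_mul, Subring.coe_mul, norm_mul] at hx ⊢
    exact (mul_le_of_le_one_left (norm_nonneg _) c.2).trans_lt hx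

theorem mem_mK {K : Type} [NormedField K] [IsUltrametricDist K] {x : oK K} :
    x ∈ mK K ↔ ‖(x : K)‖ < 1 := Iff.rfl

theorem mK_max (K : Type) [NormedField K] [IsUltrametricDist K] : (mK K).IsMaximal := by
  rw [Ideal.isMaximal_iff]
  refine ⟨fun h => ?_, fun J x _ hx hxJ => ?_⟩
  · rw [mem_mK] at h
    simp at h
  · rw [mem_mK, not_lt] at hx
    have h1 : ‖(x : K)‖ = 1 := le_antisymm x.2 hx
    have h2 : (x : K) ≠ 0 := by
      intro h
      rw [h, norm_zero] at h1
      exact zero_ne_one h1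
    have h3 : (x : K)⁻¹ ∈ oK K := by
      rw [mem_oK, norm_inv, h1, inv_one]
    have h4 : (1 : oK K) = ⟨(x : K)⁻¹, h3⟩ * x := by
      apply Subtype.ext
      simp [h2]
    rw [h4]
    exact J.mul_mem_left _ hxJ

/-- A homomorphism from the ring of integers to `ℂ`. -/
theorem exists_hom (K : Type) [NormedField K] [IsUltrametricDist K]
    (hn : ∀ n : ℕ, n ≠ 0 → ‖(n : K)‖ = 1) (hcard : #K ≤ 𝔠) :
    ∃ Ψ : oK K →+* ℂ, ∀ x, Ψ x = 0 ↔ ‖(x : K)‖ < 1 := by
  have := mK_max K
  let _ : Field (oK K ⧸ mK K) := Ideal.Quotient.field (mK K)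
  have : CharZero (oK K ⧸ mK K) := by
    refine charZero_of_inj_zero fun n hn0 => ?_
    by_contra hne
    have h1 : Ideal.Quotient.mk (mK K) (n : oK K) = 0 := by
      rw [map_natCast]
      exact hn0
    rw [Ideal.Quotient.eq_zero_iff_mem, mem_mK] at h1
    have h2 : ((n : oK K) : K) = (n : K) := by simp
    rw [h2, hn n hne] at h1
    exact lt_irrefl _ h1
  have h1 : #(oK K ⧸ mK K) ≤ 𝔠 :=
    (mk_le_of_surjective Ideal.Quotient.mk_surjective).trans ((mk_subtype_le _).trans hcard)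
  obtain ⟨ψ⟩ := exists_emb (oK K ⧸ mK K) h1
  refine ⟨ψ.comp (Ideal.Quotient.mk (mK K)), fun x => ?_⟩
  rw [RingHom.comp_apply, map_eq_zero, Ideal.Quotient.eq_zero_iff_mem, mem_mK]

section goodB

open Polynomial

variable {K : Type} [NormedField K] [IsUltrametricDist K]

theorem goodB (Ψ : oK K →+* ℂ) (hΨ : ∀ x, Ψ x = 0 ↔ ‖(x : K)‖ < 1) (R : Set K)
    (hR : ∀ a ∈ R, ∀ b ∈ R, ‖a‖ = ‖b‖ → a ≠ 0 → ∀ j : ℕ, j ≠ 0 → ‖(a / b) ^ j - 1‖ < 1 →
      ‖a / b - 1‖ < 1) : Good R := by
  classical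
  intro ρ hρ t ht e he he0
  rcases Multiset.empty_or_exists_mem t with h | ⟨μ₀, hμ₀⟩
  · rw [h, pol_zero, map_one, Module.End.one_apply] at he
    exact absurd he he0
  have hμ₀ρ : ‖μ₀‖ = ρ := (ht μ₀ hμ₀).2
  have hμ₀0 : μ₀ ≠ 0 := by
    rw [← norm_pos_iff, hμ₀ρ]
    exact hρ
  -- the roots divided by `μ₀`
  have hone : ∀ μ ∈ t, ‖μ₀⁻¹ * μ‖ = 1 := by
    intro μ hμ
    rw [norm_mul, norm_inv, hμ₀ρ, (ht μ hμ).2, inv_mul_cancel₀ hρ.ne']
  let tO : Multiset (oK K) := t.pmap (fun μ h => ⟨μ₀⁻¹ * μ, h⟩)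
    (fun μ hμ => mem_oK.2 (hone μ hμ).le)
  have htO : tO.map (fun x : oK K => (x : K)) = t.map (μ₀⁻¹ * ·) := by
    simp only [tO, Multiset.map_pmap]
    rw [Multiset.pmap_eq_map]
  have htO' : ∀ x ∈ tO, ∃ μ ∈ t, (x : K) = μ₀⁻¹ * μ := by
    intro x hx
    obtain ⟨μ, hμ, rfl⟩ := Multiset.mem_pmap.1 hx
    exact ⟨μ, hμ, rfl⟩
  set P : (oK K)[X] := (tO.map fun x => X - C x).prod with hP
  have hPm : P.Monic := monic_multiset_prod_of_monic _ _ fun μ _ => monic_X_sub_C μ
  have hPmap : ∀ {L : Type} [Field L] (φ : oK K →+* L),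
      P.map φ = pol (tO.map φ) := by
    intro L _ φ
    rw [hP, Polynomial.map_multiset_prod, Multiset.map_map, pol, Multiset.map_map]
    congr 1
    refine Multiset.map_congr rfl fun x _ => ?_
    simp
  -- the scaled sequence
  set e₁ : ℕ → K := scl μ₀⁻¹ e with he₁
  have hk₁ : aeval (sh : Module.End K (ℕ → K)) (P.map (oK K).subtype) e₁ = 0 := by
    rw [hPmap]
    have h1 : tO.map (oK K).subtype = t.map (μ₀⁻¹ * ·) := htO
    rw [h1, he₁, scl_pol, he, map_zero, smul_zero]
  have he₁0 : e₁ ≠ 0 := by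
    intro h
    apply he0
    funext n
    have h1 := congrFun h n
    rw [he₁, scl_apply] at h1
    rcases mul_eq_zero.1 h1 with h2 | h2
    · exact absurd h2 (pow_ne_zero _ (inv_ne_zero hμ₀0))
    · exact h2
  set d := P.natDegree with hd
  have hdm : (P.map (oK K).subtype).natDegree = d := hPm.natDegree_map _
  have hrec : ∀ n, e₁ (n + d) = - ∑ i ∈ Finset.range d, (P.coeff i : K) * e₁ (n + i) := by
    intro n
    have h2 := aeval_sh_apply (P.map (oK K).subtype) (d + 1) (by rw [hdm]; exact Nat.lt_succ_self _)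
      e₁ n
    rw [hk₁, Finset.sum_range_succ] at h2
    have h3 : P.coeff d = 1 := hPm.coeff_natDegree
    simp only [Pi.zero_apply, coeff_map, h3, map_one, one_mul] at h2
    exact eq_neg_of_add_eq_zero_right h2.symm
  -- the maximum
  have hd0 : ∃ i < d, e₁ i ≠ 0 := by
    by_contra h
    push Not at h
    exact he₁0 (rec_zero (hPm.map _) hk₁ fun i hi => h i (by rw [hdm] at hi; exact hi))
  obtain ⟨i₀, hi₀, hi₀'⟩ := hd0
  obtain ⟨j₀, hj₀, hmax⟩ := (Finset.range d).exists_max_image (fun i => ‖e₁ i‖)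
    ⟨i₀, Finset.mem_range.2 hi₀⟩
  set β := e₁ j₀ with hβ
  have hβ0 : β ≠ 0 := by
    rw [← norm_pos_iff]
    exact (norm_pos_iff.2 hi₀').trans_le (hmax i₀ (Finset.mem_range.2 hi₀))
  have hle : ∀ n, ‖e₁ n‖ ≤ ‖β‖ := by
    intro n
    induction n using Nat.strong_induction_on with
    | _ n ih =>
      by_cases hn : n < d
      · exact hmax n (Finset.mem_range.2 hn)
      · obtain ⟨j, rfl⟩ := Nat.exists_eq_add_of_le (not_lt.1 hn)
        rw [add_comm, hrec, norm_neg]
        refine IsUltrametricDist.norm_sum_le_of_forall_le_of_nonneg (norm_nonneg _) fun i hi => ?_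
        rw [norm_mul]
        rw [Finset.mem_range] at hi
        exact (mul_le_of_le_one_left (norm_nonneg _) (P.coeff i).2).trans (ih _ (by omega))
  -- the integral sequence
  have hint : ∀ n, ‖e₁ n / β‖ ≤ 1 := by
    intro n
    rw [norm_div]
    exact (div_le_one (norm_pos_iff.2 hβ0)).2 (hle n)
  let w : ℕ → oK K := fun n => ⟨e₁ n / β, hint n⟩
  have hwrec : ∀ n, ∑ i ∈ Finset.range (d + 1), P.coeff i * w (n + i) = 0 := by
    intro n
    apply Subtype.ext
    have h2 := aeval_sh_apply (P.map (oK K).subtype) (d + 1) (by rw [hdm]; exact Nat.lt_succ_self _)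
      e₁ n
    rw [hk₁] at h2
    simp only [Pi.zero_apply, coeff_map, Subring.coe_subtype] at h2
    have h3 : ((∑ i ∈ Finset.range (d + 1), P.coeff i * w (n + i) : oK K) : K) =
        (∑ i ∈ Finset.range (d + 1), (P.coeff i : K) * e₁ (n + i)) / β := by
      rw [Finset.sum_div]
      simp only [w]
      push_cast
      exact Finset.sum_congr rfl fun i _ => by rw [mul_div_assoc]
    rw [h3, ← h2, zero_div]
    rfl
  -- the reduction
  let E : ℕ → ℂ := fun n => Ψ (w n)
  have hE : aeval (sh : Module.End ℂ (ℕ → ℂ)) (pol (tO.map Ψ)) E = 0 := by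
    rw [← hPmap]
    funext n
    rw [aeval_sh_apply _ (d + 1) (by rw [hPm.natDegree_map]; exact Nat.lt_succ_self _)]
    simp only [coeff_map, E, ← map_mul, ← map_sum, hwrec, map_zero, Pi.zero_apply]
  have hE0 : E ≠ 0 := by
    intro h
    have h1 := congrFun h j₀
    simp only [E, Pi.zero_apply, hΨ, w] at h1
    rw [← hβ, div_self hβ0, norm_one] at h1
    exact lt_irrefl _ h1
  have hroot : ∀ x ∈ tO, ‖(x : K)‖ = 1 := by
    intro x hx
    obtain ⟨μ, hμ, h⟩ := htO' x hx
    rw [h]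
    exact hone μ hμ
  have hev := nd_zero (tO.map Ψ) (by
    intro h
    obtain ⟨x, hx, hx0⟩ := Multiset.mem_map.1 h
    rw [hΨ, hroot x hx] at hx0
    exact lt_irrefl _ hx0) (by
    intro ν hν ν' hν' b hb hbb
    obtain ⟨x, hx, rfl⟩ := Multiset.mem_map.1 hν
    obtain ⟨y, hy, rfl⟩ := Multiset.mem_map.1 hν'
    obtain ⟨μ, hμ, hxμ⟩ := htO' x hx
    obtain ⟨μ', hμ', hyμ⟩ := htO' y hy
    have hy0 : (y : K) ≠ 0 := by
      rw [← norm_pos_iff, hroot y hy]
      exact one_pos
    have hμ'0 : μ' ≠ 0 := by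
      rintro rfl
      rw [mul_zero] at hyμ
      exact hy0 hyμ
    have hμ0 : μ ≠ 0 := by
      rw [← norm_pos_iff, (ht μ hμ).2]
      exact hρ
    have hq : (x : K) / y = μ / μ' := by
      rw [hxμ, hyμ]
      field_simp
    have h1 : ‖((x ^ b - y ^ b : oK K) : K)‖ < 1 := by
      rw [← hΨ, map_sub, map_pow, map_pow, hbb, sub_self]
    have h2 : ‖(μ / μ') ^ b - 1‖ < 1 := by
      rw [← hq]
      have h3 : ((x : K) / y) ^ b - 1 = ((x ^ b - y ^ b : oK K) : K) / (y : K) ^ b := by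
        push_cast
        rw [div_pow, sub_div, div_self (pow_ne_zero b hy0)]
      rw [h3, norm_div, norm_pow, hroot y hy, one_pow, div_one]
      exact h1
    have h4 := hR μ (ht μ hμ).1 μ' (ht μ' hμ').1 ((ht μ hμ).2.trans (ht μ' hμ').2.symm) hμ0 b hb h2
    rw [← hq] at h4
    have h5 : (x : K) / y - 1 = ((x - y : oK K) : K) / (y : K) := by
      push_cast
      rw [sub_div, div_self hy0]
    rw [h5, norm_div, hroot y hy, div_one, ← hΨ, map_sub, sub_eq_zero] at h4
    exact h4) E hE hE0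
  refine ⟨‖β‖, norm_pos_iff.2 hβ0, ?_⟩
  filter_upwards [hev] with n hn
  have h1 : ¬ ‖((w n : oK K) : K)‖ < 1 := by
    rw [← hΨ]
    exact hn
  rw [not_lt] at h1
  have h2 : ‖e₁ n‖ = ‖β‖ := by
    refine le_antisymm (hle n) ?_
    have h3 : 1 ≤ ‖e₁ n / β‖ := h1
    rw [norm_div, one_le_div (norm_pos_iff.2 hβ0)] at h3
    exact h3
  have h4 : ‖e₁ n‖ = ‖e n‖ / ρ ^ n := by
    rw [he₁, scl_apply, norm_mul, norm_pow, norm_inv, hμ₀ρ, inv_pow]
    field_simp
  have h5 : 0 < ρ ^ n := pow_pos hρ n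
  rw [h4, div_eq_iff h5.ne'] at h2
  rw [h2]

end goodB

end Pool.Agent.N137.AO
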