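import Pool.Agent.N137.AO.Fin
import Pool.Agent.N137.AO.Res

set_option autoImplicit false

/-!
# Attracted orbits at places of residue characteristic zero
-/

namespace Pool.Agent.N137.AO

open MvPolynomial Filter Topology

/-! ### Groups -/

theorem add_exp (M : Type) [AddCommGroup M] [Module.Finite ℤ M] :
    ∃ N : ℕ, N ≠ 0 ∧ ∀ g : M, (∃ j : ℕ, j ≠ 0 ∧ j • g = 0) → N • g = 0 := by
  have : Finite (Submodule.torsion ℤ M) :=
    Module.finite_of_fg_torsion _ (Submodule.torsion_isTorsion)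
  refine ⟨Nat.card (Submodule.torsion ℤ M), Nat.card_pos.ne', fun g hg => ?_⟩
  obtain ⟨j, hj, hjg⟩ := hg
  have h1 : g ∈ Submodule.torsion ℤ M := by
    rw [Submodule.mem_torsion_iff]
    refine ⟨⟨(j : ℤ), mem_nonZeroDivisors_of_ne_zero (by exact_mod_cast hj)⟩, ?_⟩
    rw [Submonoid.smul_def]
    simpa using hjg
  have h2 : Nat.card (Submodule.torsion ℤ M) • (⟨g, h1⟩ : Submodule.torsion ℤ M) = 0 :=
    card_nsmul_eq_zero'
  exact congrArg Subtype.val h2

theorem grp_exp (G : Type) [CommGroup G] (s : Set G) (hs : s.Finite) (B : Subgroup G) :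
    ∃ N : ℕ, N ≠ 0 ∧ ∀ g ∈ Subgroup.closure s, (∃ j : ℕ, j ≠ 0 ∧ g ^ j ∈ B) → g ^ N ∈ B := by
  have : Finite s := hs
  let H := Subgroup.closure s
  have : Group.FG H := Group.closure_finite_fg s
  let Q := H ⧸ (B.subgroupOf H)
  have : Group.FG Q := inferInstance
  have : Module.Finite ℤ (Additive Q) := Module.Finite.iff_addGroup_fg.2 inferInstance
  obtain ⟨N, hN, h⟩ := add_exp (Additive Q)
  refine ⟨N, hN, fun g hg hj => ?_⟩
  obtain ⟨j, hj, hjB⟩ := hj
  have h1 := h (Additive.ofMul (QuotientGroup.mk (⟨g, hg⟩ : H))) ⟨j, hj, by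
    rw [← ofMul_pow, ofMul_eq_zero, ← QuotientGroup.mk_pow, QuotientGroup.eq_one_iff]
    exact hjB⟩
  rw [← ofMul_pow, ofMul_eq_zero, ← QuotientGroup.mk_pow, QuotientGroup.eq_one_iff] at h1
  exact h1

section

variable (v : AbsoluteValue ℂ ℝ)

/-- units close to one -/
def nearOne (hv : IsNonarchimedean v) : Subgroup ℂˣ where
  carrier := {g | v ((g : ℂ) - 1) < 1}
  one_mem' := by simp
  mul_mem' := by
    intro a b ha hb
    simp only [Set.mem_ofPred_eq, Units.val_mul] at ha hb ⊢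
    have h1 : v (a : ℂ) ≤ 1 := by
      have h2 := hv ((a : ℂ) - 1) 1
      rw [sub_add_cancel, map_one] at h2
      exact h2.trans (max_le ha.le le_rfl)
    have h3 : (a : ℂ) * b - 1 = a * ((b : ℂ) - 1) + (a - 1) := by ring
    rw [h3]
    refine (hv _ _).trans_lt (max_lt ?_ ha)
    rw [map_mul]
    exact (mul_le_of_le_one_left (v.nonneg _) h1).trans_lt hb
  inv_mem' := by
    intro a ha
    simp only [Set.mem_ofPred_eq] at ha ⊢
    have h1 : 1 ≤ v (a : ℂ) := by
      have h2 := hv (-((a : ℂ) - 1)) a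
      have h3 : -((a : ℂ) - 1) + a = 1 := by ring
      rw [h3, map_one, map_neg_eq_map] at h2
      rcases le_max_iff.1 h2 with h | h
      · exact absurd ha (not_lt.2 h)
      · exact h
    have h4 : (((a⁻¹ : ℂˣ) : ℂ)) - 1 = -((a : ℂ)⁻¹ * ((a : ℂ) - 1)) := by
      rw [Units.val_inv_eq_inv_val]
      field_simp
      ring
    rw [h4, map_neg_eq_map, map_mul, map_inv₀]
    exact (mul_le_of_le_one_left (v.nonneg _) (inv_le_one_of_one_le₀ h1)).trans_lt ha

theorem mem_nearOne (hv : IsNonarchimedean v) (g : ℂˣ) :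
    g ∈ nearOne v hv ↔ v ((g : ℂ) - 1) < 1 := Iff.rfl

theorem mult_finite {m : ℕ} (f : Fin m → MvPolynomial (Fin m) ℂ) (g : MvPolynomial (Fin m) ℂ)
    (x : ℕ → Fin m → ℂ) (p : Fin m → ℂ) : (Mult f g x p).Finite := by
  let L : Module.End ℂ (Fin m → ℂ) :=
    { toFun := dF f g p
      map_add' := by
        intro a b
        funext i
        simp only [dF, Pi.add_apply, add_mul, Finset.sum_add_distrib]
      map_smul' := by
        intro c a
        funext i
        simp only [dF, Pi.smul_apply, smul_eq_mul, RingHom.id_apply, Finset.mul_sum]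
        exact Finset.sum_congr rfl fun j _ => by ring }
  refine (Module.End.finite_hasEigenvalue L).subset ?_
  rintro μ ⟨w, _, hw0, hw⟩
  exact Module.End.hasEigenvalue_of_hasEigenvector (x := w)
    ⟨Module.End.mem_eigenspace_iff.2 hw, hw0⟩

theorem ultra (hv : IsNonarchimedean v) : IsUltrametricDist v.Completion := by
  refine IsUltrametricDist.isUltrametricDist_of_isNonarchimedean_norm ?_
  intro a b
  refine UniformSpace.Completion.induction_on₂ a b ?_ ?_
  · exact isClosed_le (by fun_prop) (by fun_prop)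
  · intro a b
    rw [← UniformSpace.Completion.coe_add, UniformSpace.Completion.norm_coe,
      UniformSpace.Completion.norm_coe, UniformSpace.Completion.norm_coe]
    exact hv _ _

open Cardinal in
theorem card_completion : #v.Completion ≤ 𝔠 := by
  have h1 : ∀ y : v.Completion, ∃ s : ℕ → ℂ, Tendsto (fun n => emb v (s n)) atTop (𝓝 y) := by
    intro y
    have h2 : y ∈ closure (Set.range (emb v)) := by
      have h3 := (UniformSpace.Completion.denseRange_coe (α := WithAbs v)) y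
      refine closure_mono ?_ h3
      rintro _ ⟨z, rfl⟩
      exact ⟨WithAbs.equiv v z, rfl⟩
    obtain ⟨s, hs, hsy⟩ := mem_closure_iff_seq_limit.1 h2
    choose u hu using hs
    refine ⟨u, ?_⟩
    simp only [hu]
    exact hsy
  choose s hs using h1
  have h2 : Function.Injective s := by
    intro y z hyz
    have h3 := hs y
    rw [hyz] at h3
    exact tendsto_nhds_unique h3 (hs z)
  refine (mk_le_of_injective h2).trans ?_
  rw [mk_arrow, mk_complex]
  simp

/-- Attracted orbits, residue characteristic zero. -/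
theorem final_B (hv : IsNonarchimedean v) (hn : ∀ n : ℕ, n ≠ 0 → v n = 1) {m : ℕ}
    (f : Fin m → MvPolynomial (Fin m) ℂ)
    (g : MvPolynomial (Fin m) ℂ) (x : ℕ → Fin m → ℂ) (p : Fin m → ℂ) (C c : ℝ)
    (gp : eval p g ≠ 0)
    (hstep : ∀ᶠ n in atTop, ∀ i, x (n + 1) i * eval (x n) g = eval (x n) (f i))
    (hc0 : 0 < c) (hc : c < 1)
    (hconv : ∀ᶠ n in atTop, ∀ i, v (x n i - p i) ≤ C * c ^ n)
    (h0 : (0 : ℂ) ∉ Mult f g x p)
    (S : Set (MvPolynomial (Fin m) ℂ)) :
    ∃ T : Finset (ℕ × ℕ),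
      {n : ℕ | ∀ h ∈ S, eval (x n) h = 0} = {n : ℕ | ∃ t ∈ T, ∃ k : ℕ, n = t.1 + t.2 * k} := by
  classical
  have := ultra v hv
  obtain ⟨N, hN, hexp⟩ := grp_exp ℂˣ {u : ℂˣ | (u : ℂ) ∈ Mult f g x p}
    ((mult_finite f g x p).preimage (Units.val_injective.injOn)) (nearOne v hv)
  have hM : ∀ a ∈ Submonoid.closure (Mult f g x p), ∃ u : ℂˣ, (u : ℂ) = a ∧
      u ∈ Subgroup.closure {u : ℂˣ | (u : ℂ) ∈ Mult f g x p} := by
    intro a ha
    induction ha using Submonoid.closure_induction with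
    | mem a ha =>
      have ha0 : a ≠ 0 := by
        rintro rfl
        exact h0 ha
      exact ⟨Units.mk0 a ha0, rfl, Subgroup.subset_closure ha⟩
    | one => exact ⟨1, rfl, Subgroup.one_mem _⟩
    | mul a b _ _ ha hb =>
      obtain ⟨u, hu, hu'⟩ := ha
      obtain ⟨w, hw, hw'⟩ := hb
      exact ⟨u * w, by rw [Units.val_mul, hu, hw], Subgroup.mul_mem _ hu' hw'⟩
  obtain ⟨Ψ, hΨ⟩ := exists_hom v.Completion (fun n hn0 => by
    rw [← map_natCast (emb v) n, norm_emb]
    exact hn n hn0) (card_completion v)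
  obtain ⟨T, _, hT⟩ := final v f g x p C c gp hstep hc0 hc hconv h0 N hN (by
    let _ : Algebra ℂ v.Completion := (emb v).toAlgebra
    have hmap : ∀ z : ℂ, algebraMap ℂ v.Completion z = emb v z := fun z => rfl
    refine goodB Ψ hΨ _ ?_
    rintro _ ⟨a, ha, rfl⟩ _ ⟨b, hb, rfl⟩ _ _ j hj hlt
    simp only [hmap] at hlt ⊢
    obtain ⟨u, rfl, hu⟩ := hM a ha
    obtain ⟨w, rfl, hw⟩ := hM b hb
    have e1 : ∀ k : ℕ, v ((((u * w⁻¹ : ℂˣ) ^ k : ℂˣ) : ℂ) - 1) =
        ‖(emb v u / emb v w) ^ k - 1‖ := by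
      intro k
      rw [← norm_emb, map_sub, map_one, Units.val_pow_eq_pow_val, map_pow, Units.val_mul, map_mul,
        Units.val_inv_eq_inv_val, map_inv₀, div_eq_mul_inv]
    rw [← div_pow, ← pow_mul, ← e1] at hlt
    rw [← div_pow, ← e1]
    exact hexp _ (Subgroup.mul_mem _ hu (Subgroup.inv_mem _ hw))
      ⟨N * j, Nat.mul_ne_zero hN hj, hlt⟩) S
  exact ⟨T, hT⟩

end

end Pool.Agent.N137.AO
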