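import Pool.Agent.N137.AO.Seq

set_option autoImplicit false

/-!
# Residue classes
-/

namespace Pool.Agent.N137.AO

open Polynomial Filter Topology

variable {K : Type*} [NormedField K]

/-- The subsequence of a residue class. -/
def cls (N r : ℕ) : (ℕ → K) →ₗ[K] (ℕ → K) where
  toFun u := fun n => u (N * n + r)
  map_add' _ _ := rfl
  map_smul' _ _ := rfl

@[simp] theorem cls_apply (N r : ℕ) (u : ℕ → K) (n : ℕ) : cls N r u n = u (N * n + r) := rfl

theorem sh_pow_apply (N : ℕ) (u : ℕ → K) (n : ℕ) :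
    (((sh : Module.End K (ℕ → K)) ^ N) u) n = u (n + N) := by
  induction N generalizing n with
  | zero => simp
  | succ N ih =>
    rw [pow_succ', Module.End.mul_apply, sh_apply, ih]
    congr 1
    ring

theorem cls_aeval (N r : ℕ) (P : K[X]) (u : ℕ → K) :
    cls N r (aeval ((sh : Module.End K (ℕ → K)) ^ N) P u) =
      aeval (sh : Module.End K (ℕ → K)) P (cls N r u) := by
  induction P using Polynomial.induction_on' with
  | add p q hp hq => simp only [map_add, LinearMap.add_apply, hp, hq]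
  | monomial k a =>
    simp only [aeval_monomial, Module.End.mul_apply, Algebra.algebraMap_eq_smul_one,
      LinearMap.smul_apply, Module.End.one_apply, map_smul]
    congr 1
    funext n
    rw [cls_apply, sh_pow_apply, cls_apply, ← pow_mul, sh_pow_apply]
    congr 1
    ring

theorem pol_dvd (N : ℕ) (s : Multiset K) :
    pol s ∣ (pol (s.map (fun μ => μ ^ N))).comp (X ^ N) := by
  induction s using Multiset.induction_on with
  | empty => simp
  | cons μ s ih =>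
    rw [Multiset.map_cons, pol_cons, pol_cons, mul_comp]
    refine mul_dvd_mul ?_ ih
    rw [sub_comp, X_comp, C_comp, C_pow]
    exact sub_dvd_pow_sub_pow _ _ _

theorem cls_killed (N r : ℕ) (s : Multiset K) (e : ℕ → K)
    (he : aeval (sh : Module.End K (ℕ → K)) (pol s) e = 0) :
    aeval (sh : Module.End K (ℕ → K)) (pol (s.map (fun μ => μ ^ N))) (cls N r e) = 0 := by
  rw [← cls_aeval]
  obtain ⟨Q, hQ⟩ := pol_dvd N s
  have h1 : aeval ((sh : Module.End K (ℕ → K)) ^ N) (pol (s.map (fun μ => μ ^ N))) =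
      aeval (sh : Module.End K (ℕ → K)) ((pol (s.map (fun μ => μ ^ N))).comp (X ^ N)) := by
    rw [aeval_comp, map_pow, aeval_X]
  rw [h1, hQ, mul_comm, map_mul, Module.End.mul_apply, he, map_zero, map_zero]

theorem BO.cls {θ : ℝ} {u : ℕ → K} (hu : BO θ u) (N r : ℕ) :
    BO (θ ^ N) (cls N r u) := by
  obtain ⟨C, hC⟩ := hu
  refine ⟨C * θ ^ r, fun n => ?_⟩
  rw [cls_apply]
  calc ‖u (N * n + r)‖ ≤ C * θ ^ (N * n + r) := hC _
    _ = C * θ ^ r * (θ ^ N) ^ n := by rw [pow_add, pow_mul]; ring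

theorem not_zero_of_low {ρ η c : ℝ} (hη : 0 ≤ η) (hρ : η < ρ) (hc : 0 < c) {u e : ℕ → K}
    (he : ∀ᶠ n in atTop, c * ρ ^ n ≤ ‖e n‖) (hue : BO η (u - e)) : ∀ᶠ n in atTop, u n ≠ 0 := by
  obtain ⟨D, hD⟩ := hue
  have hρ0 : 0 < ρ := hη.trans_lt hρ
  have h3 : Tendsto (fun n : ℕ => D * (η / ρ) ^ n) atTop (𝓝 (D * 0)) :=
    (tendsto_pow_atTop_nhds_zero_of_lt_one (by positivity) ((div_lt_one hρ0).2 hρ)).const_mul D
  rw [mul_zero] at h3
  filter_upwards [he, h3.eventually_lt_const hc] with n hn1 hn2 hu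
  have h4 := hD n
  rw [Pi.sub_apply, hu, zero_sub, norm_neg] at h4
  have h5 : η ^ n = (η / ρ) ^ n * ρ ^ n := by
    rw [div_pow, div_mul_cancel₀ _ (pow_pos hρ0 n).ne']
  rw [h5, ← mul_assoc] at h4
  have h6 := mul_lt_mul_of_pos_right hn2 (pow_pos hρ0 n)
  linarith

variable [CompleteSpace K]

theorem dichotomy_step {R : Set K} (hR : Good R) (N r : ℕ) {η : ℝ} (hη : 0 ≤ η)
    (s : Multiset K) (hs : ∀ μ ∈ s, μ ^ N ∈ R) (u : ℕ → K)
    (hu : BO η (aeval (sh : Module.End K (ℕ → K)) (pol s) u)) {η' : ℝ} (hη' : η ^ N < η')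
    (hN : N ≠ 0) :
    BO η' (cls N r u) ∨ ∀ᶠ n in atTop, u (N * n + r) ≠ 0 := by
  obtain ⟨η₁, h1, h2⟩ : ∃ η₁ : ℝ, η < η₁ ∧ η₁ ^ N < η' := by
    have hc : ContinuousAt (fun x : ℝ => x ^ N) η := (continuous_pow N).continuousAt
    have h3 : ∀ᶠ x in 𝓝 η, x ^ N < η' := hc.eventually_lt_const hη'
    obtain ⟨x, hx1, hx2⟩ := ((h3.filter_mono nhdsWithin_le_nhds).and
      (self_mem_nhdsWithin : Set.Ioi η ∈ 𝓝[>] η)).exists
    exact ⟨x, hx2, hx1⟩
  have h10 : 0 ≤ η₁ := hη.trans h1.le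
  obtain ⟨e, he, hue⟩ := exact_of_approx s hη h1 u hu
  have he' := cls_killed N r s e he
  have hue' := hue.cls N r
  rw [map_sub] at hue'
  rcases dominate hR (η₁ ^ N) (pow_nonneg h10 N) _ _ rfl (by
    intro μ hμ
    obtain ⟨ν, hν, rfl⟩ := Multiset.mem_map.1 hμ
    exact hs ν hν) _ he' with h | ⟨ρ, c, hρ, hc, hev⟩
  · left
    have h4 := (h η' h2).add (hue'.mono (pow_nonneg h10 N) h2.le)
    rwa [add_sub_cancel] at h4
  · right
    exact not_zero_of_low (pow_nonneg h10 N) hρ hc hev hue'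

end Pool.Agent.N137.AO
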