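import Pool.Agent.N137.AO.Alg
import Pool.Agent.N137.AO.Sub

set_option autoImplicit false

/-!
# Values of polynomials along a convergent orbit of a rational map
-/

namespace Pool.Agent.N137.AO

open MvPolynomial Filter Topology

/-! ### More on `BO` -/

section

variable {K : Type*} [NormedField K]

theorem BO.mul {a b : ℝ} {u w : ℕ → K} (hu : BO a u) (hw : BO b w) :
    BO (a * b) (u * w) := by
  obtain ⟨C, hC⟩ := hu
  obtain ⟨D, hD⟩ := hw
  refine ⟨C * D, fun n => ?_⟩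
  rw [Pi.mul_apply, norm_mul]
  have h0 : 0 ≤ C * a ^ n := (norm_nonneg _).trans (hC n)
  calc ‖u n‖ * ‖w n‖ ≤ (C * a ^ n) * (D * b ^ n) :=
        mul_le_mul (hC n) (hD n) (norm_nonneg _) h0
    _ = C * D * (a * b) ^ n := by rw [mul_pow]; ring

theorem bo_const (c : K) : BO 1 (fun _ : ℕ => c) := ⟨‖c‖, fun n => by simp⟩

theorem bo_eventually {θ : ℝ} (hθ : 0 < θ) {u w : ℕ → K} (hu : BO θ u)
    (h : ∀ᶠ n in atTop, w n = u n) : BO θ w := by
  obtain ⟨C, hC⟩ := hu
  obtain ⟨N, hN⟩ := eventually_atTop.1 h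
  refine ⟨|C| + ∑ i ∈ Finset.range N, ‖w i‖ / θ ^ i, fun n => ?_⟩
  have h0 : ∀ i ∈ Finset.range N, 0 ≤ ‖w i‖ / θ ^ i := fun i _ =>
    div_nonneg (norm_nonneg _) (pow_nonneg hθ.le i)
  by_cases hn : n < N
  · have h1 : ‖w n‖ / θ ^ n ≤ ∑ i ∈ Finset.range N, ‖w i‖ / θ ^ i :=
      Finset.single_le_sum h0 (Finset.mem_range.2 hn)
    have h2 : ‖w n‖ = ‖w n‖ / θ ^ n * θ ^ n := by
      rw [div_mul_cancel₀ _ (pow_pos hθ n).ne']
    rw [h2]
    refine mul_le_mul_of_nonneg_right ?_ (pow_nonneg hθ.le n)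
    exact h1.trans (le_add_of_nonneg_left (abs_nonneg C))
  · rw [hN n (not_lt.1 hn)]
    refine (hC n).trans (mul_le_mul_of_nonneg_right ?_ (pow_nonneg hθ.le n))
    exact (le_abs_self C).trans (le_add_of_nonneg_right (Finset.sum_nonneg h0))

end

/-! ### Clearing denominators -/

section clear

variable {F : Type} [Field F] {m : ℕ}

theorem clear (f : Fin m → MvPolynomial (Fin m) F) (g h : MvPolynomial (Fin m) F) :
    ∃ q : ℕ × MvPolynomial (Fin m) F, ∀ (B : Type) [CommRing B] [Algebra F B]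
      (ψ : MvPolynomial (Fin m) F →ₐ[F] B) (γ : B), ψ g * γ = 1 →
      aeval (fun i => ψ (f i) * γ) h = γ ^ q.1 * ψ q.2 := by
  induction h using MvPolynomial.induction_on with
  | C a =>
    refine ⟨(0, C a), fun B _ _ ψ γ _ => ?_⟩
    rw [pow_zero, one_mul, aeval_C]
    exact (ψ.commutes a).symm
  | add h₁ h₂ ih₁ ih₂ =>
    obtain ⟨⟨D₁, c₁⟩, h1⟩ := ih₁
    obtain ⟨⟨D₂, c₂⟩, h2⟩ := ih₂
    refine ⟨(D₁ + D₂, g ^ D₂ * c₁ + g ^ D₁ * c₂), fun B _ _ ψ γ hγ => ?_⟩
    have e1 : ψ g ^ D₁ * γ ^ D₁ = 1 := by rw [← mul_pow, hγ, one_pow]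
    have e2 : ψ g ^ D₂ * γ ^ D₂ = 1 := by rw [← mul_pow, hγ, one_pow]
    rw [map_add, h1 B ψ γ hγ, h2 B ψ γ hγ]
    simp only [map_add, map_mul, map_pow, pow_add]
    linear_combination (-(γ ^ D₁ * ψ c₁)) * e2 - (γ ^ D₂ * ψ c₂) * e1
  | mul_X h i ih =>
    obtain ⟨⟨D, c⟩, h1⟩ := ih
    refine ⟨(D + 1, c * f i), fun B _ _ ψ γ hγ => ?_⟩
    rw [map_mul, h1 B ψ γ hγ, aeval_X]
    simp only [map_mul, pow_succ]
    ring

/-- The exponent of the denominator of `h ∘ (f / g)`. -/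
noncomputable def dg (f : Fin m → MvPolynomial (Fin m) F) (g h : MvPolynomial (Fin m) F) : ℕ :=
  (clear f g h).choose.1

/-- The numerator of `h ∘ (f / g)`. -/
noncomputable def cl (f : Fin m → MvPolynomial (Fin m) F) (g h : MvPolynomial (Fin m) F) :
    MvPolynomial (Fin m) F := (clear f g h).choose.2

theorem cl_spec (f : Fin m → MvPolynomial (Fin m) F) (g h : MvPolynomial (Fin m) F) (B : Type)
    [CommRing B] [Algebra F B] (ψ : MvPolynomial (Fin m) F →ₐ[F] B) (γ : B) (hγ : ψ g * γ = 1) :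
    aeval (fun i => ψ (f i) * γ) h = γ ^ dg f g h * ψ (cl f g h) :=
  (clear f g h).choose_spec B ψ γ hγ

theorem cl_eval (f : Fin m → MvPolynomial (Fin m) F) (g h : MvPolynomial (Fin m) F)
    (x y : Fin m → F) (hg : eval x g ≠ 0) (hy : ∀ i, y i = eval x (f i) / eval x g) :
    eval x (cl f g h) = eval x g ^ dg f g h * eval y h := by
  have h1 := cl_spec f g h F (aeval x) (eval x g)⁻¹ (by
    rw [← MvPolynomial.coe_aeval_eq_eval] at hg ⊢
    exact mul_inv_cancel₀ hg)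
  have h2 : (fun i => (aeval x) (f i) * (eval x g)⁻¹) = y := by
    funext i
    rw [hy, div_eq_mul_inv]
    simp [MvPolynomial.aeval_eq_eval]
  rw [h2] at h1
  simp only [MvPolynomial.aeval_eq_eval] at h1
  rw [h1, inv_pow, ← mul_assoc, mul_inv_cancel₀ (pow_ne_zero _ hg), one_mul]

end clear

/-! ### The ideals -/

section ideals

variable {F : Type} [Field F] {m : ℕ}

/-- the maximal ideal of the point `p` -/
noncomputable def mxi (p : Fin m → F) : Ideal (MvPolynomial (Fin m) F) := RingHom.ker (eval p)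

theorem mem_mxi {p : Fin m → F} {h : MvPolynomial (Fin m) F} : h ∈ mxi p ↔ eval p h = 0 :=
  RingHom.mem_ker

/-- the ideal of the polynomials that vanish at all but finitely many points of the sequence -/
def vanI (x : ℕ → Fin m → F) : Ideal (MvPolynomial (Fin m) F) where
  carrier := {h | ∀ᶠ n in atTop, eval (x n) h = 0}
  add_mem' := by
    intro a b ha hb
    filter_upwards [ha, hb] with n h1 h2
    rw [map_add, h1, h2, add_zero]
  zero_mem' := by simp
  smul_mem' := by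
    intro c a ha
    filter_upwards [ha] with n h1
    rw [smul_eq_mul, map_mul, h1, mul_zero]

theorem mem_vanI {x : ℕ → Fin m → F} {h : MvPolynomial (Fin m) F} :
    h ∈ vanI x ↔ ∀ᶠ n in atTop, eval (x n) h = 0 := Iff.rfl

theorem inv_exists (p : Fin m → F) (g : MvPolynomial (Fin m) F) (hg : eval p g ≠ 0) (k : ℕ) :
    ∃ G : MvPolynomial (Fin m) F, g * G - 1 ∈ mxi p ^ k := by
  have base : g * C (eval p g)⁻¹ - 1 ∈ mxi p ^ 1 := by
    rw [pow_one, mem_mxi, map_sub, map_mul, eval_C, mul_inv_cancel₀ hg, map_one, sub_self]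
  rcases k with _ | k
  · exact ⟨0, by rw [pow_zero, Ideal.one_eq_top]; exact Submodule.mem_top⟩
  induction k with
  | zero => exact ⟨_, base⟩
  | succ k ih =>
    obtain ⟨G, hG⟩ := ih
    refine ⟨G * (1 - (g * G - 1)), ?_⟩
    have e : g * (G * (1 - (g * G - 1))) - 1 = -((g * G - 1) * (g * G - 1)) := by ring
    rw [e, neg_mem_iff]
    have h1 := Ideal.mul_mem_mul hG hG
    rw [← pow_add] at h1
    exact Ideal.pow_le_pow_right (by omega) h1

end ideals

end Pool.Agent.N137.AO
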