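import Pool.Agent.N137.AO.Fast

set_option autoImplicit false

/-!
# Return sets of attracted orbits
-/

namespace Pool.Agent.N137.AO

open MvPolynomial Filter Topology

/-- A set of natural numbers which is eventually constant on every residue class mod `N` is a finite
union of progressions. -/
theorem ap_of_classes (N : ℕ) (hN : N ≠ 0) (Z : Set ℕ)
    (h : ∀ r : ℕ, (∀ᶠ n in atTop, N * n + r ∈ Z) ∨ (∀ᶠ n in atTop, N * n + r ∉ Z)) :
    ∃ T : Finset (ℕ × ℕ), (∀ t ∈ T, t.2 = 0 ∨ t.2 = N) ∧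
      Z = {n : ℕ | ∃ t ∈ T, ∃ k : ℕ, n = t.1 + t.2 * k} := by
  classical
  have h1 : ∀ r : ℕ, ∃ n₀ : ℕ, (∀ n, n₀ ≤ n → N * n + r ∈ Z) ∨ (∀ n, n₀ ≤ n → N * n + r ∉ Z) := by
    intro r
    rcases h r with h | h
    · obtain ⟨n₀, hn₀⟩ := eventually_atTop.1 h
      exact ⟨n₀, Or.inl hn₀⟩
    · obtain ⟨n₀, hn₀⟩ := eventually_atTop.1 h
      exact ⟨n₀, Or.inr hn₀⟩
  choose a ha using h1
  set n₀ := ∑ r ∈ Finset.range N, a r with hn₀
  have han : ∀ r, r < N → a r ≤ n₀ := fun r hr =>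
    Finset.single_le_sum (f := a) (fun _ _ => Nat.zero_le _) (Finset.mem_range.2 hr)
  have hNpos : 0 < N := Nat.pos_of_ne_zero hN
  refine ⟨((Finset.range (N * n₀)).filter (· ∈ Z)).image (fun z => (z, 0)) ∪
    ((Finset.range N).filter (fun r => N * n₀ + r ∈ Z)).image (fun r => (N * n₀ + r, N)),
    ?_, ?_⟩
  · intro t ht
    rcases Finset.mem_union.1 ht with ht | ht
    · obtain ⟨z, _, rfl⟩ := Finset.mem_image.1 ht
      exact Or.inl rfl
    · obtain ⟨z, _, rfl⟩ := Finset.mem_image.1 ht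
      exact Or.inr rfl
  · ext n
    simp only [Set.mem_setOf_eq]
    constructor
    · intro hn
      by_cases hlt : n < N * n₀
      · refine ⟨(n, 0), Finset.mem_union_left _ (Finset.mem_image.2 ⟨n, ?_, rfl⟩), 0, by simp⟩
        exact Finset.mem_filter.2 ⟨Finset.mem_range.2 hlt, hn⟩
      · rw [not_lt] at hlt
        have hr : n % N < N := Nat.mod_lt _ hNpos
        have hdiv : N * (n / N) + n % N = n := Nat.div_add_mod n N
        have hq : n₀ ≤ n / N := (Nat.le_div_iff_mul_le hNpos).2 (by rw [mul_comm]; exact hlt)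
        have hmem : N * n₀ + n % N ∈ Z := by
          rcases ha (n % N) with h | h
          · exact h _ (han _ hr)
          · exact absurd (by rw [hdiv]; exact hn) (h (n / N) ((han _ hr).trans hq))
        refine ⟨(N * n₀ + n % N, N), Finset.mem_union_right _ (Finset.mem_image.2
          ⟨n % N, Finset.mem_filter.2 ⟨Finset.mem_range.2 hr, hmem⟩, rfl⟩), n / N - n₀, ?_⟩
        obtain ⟨j, hj⟩ := Nat.exists_eq_add_of_le hq
        rw [hj, Nat.add_sub_cancel_left]
        calc n = N * (n / N) + n % N := hdiv.symm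
          _ = N * (n₀ + j) + n % N := by rw [hj]
          _ = N * n₀ + n % N + N * j := by ring
    · rintro ⟨t, ht, k, rfl⟩
      rcases Finset.mem_union.1 ht with ht | ht
      · obtain ⟨z, hz, rfl⟩ := Finset.mem_image.1 ht
        rw [Finset.mem_filter] at hz
        simpa using hz.2
      · obtain ⟨r, hr, rfl⟩ := Finset.mem_image.1 ht
        rw [Finset.mem_filter, Finset.mem_range] at hr
        have e : N * n₀ + r + N * k = N * (n₀ + k) + r := by ring
        show N * n₀ + r + N * k ∈ Z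
        rw [e]
        rcases ha r with h | h
        · exact h _ ((han _ hr.1).trans (Nat.le_add_right _ _))
        · exact absurd hr.2 (h _ (han _ hr.1))

namespace Dat

variable {F K : Type} [Field F] [NormedField K] [Algebra F K] {m : ℕ} (D : Dat F K m)
  [IsAlgClosed F] [CompleteSpace K]

theorem T_inj (M : Submonoid F) (hM : D.Spec ⊆ M) (h0 : (0 : F) ∉ M) (k : ℕ) :
    Function.Injective (D.T k) := by
  rw [injective_iff_map_eq_zero]
  intro a ha
  by_contra hne
  exact h0 (D.T_eig M hM k 0 a (by rw [ha, zero_smul]) hne)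

theorem dich (M : Submonoid F) (hM : D.Spec ⊆ M) (N : ℕ) (hN : N ≠ 0)
    (hR : Good (K := K) ((fun μ : F => algebraMap F K μ ^ N) '' (M : Set F))) (r : ℕ)
    (h : MvPolynomial (Fin m) F) :
    h ∈ D.SS N r ∨ ∀ᶠ n in atTop, eval (D.x (N * n + r)) h ≠ 0 := by
  by_cases hh : h ∈ D.SS N r
  · exact Or.inl hh
  right
  rw [mem_SS] at hh
  push Not at hh
  obtain ⟨θ, hθ, hnot⟩ := hh
  obtain ⟨k, hk⟩ : ∃ k : ℕ, (D.c ^ k) ^ N < θ := by
    have h1 : Tendsto (fun k : ℕ => (D.c ^ k) ^ N) atTop (𝓝 (0 ^ N)) :=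
      (tendsto_pow_atTop_nhds_zero_of_lt_one D.c_pos.le D.c_lt).pow N
    rw [zero_pow hN] at h1
    exact (h1.eventually_lt_const hθ).exists
  obtain ⟨s, hs, hs'⟩ := D.approx_rec M hM k
  rcases dichotomy_step hR N r (pow_nonneg D.c_pos.le k) (s.map (algebraMap F K)) (by
    intro μ hμ
    obtain ⟨ν, hν, rfl⟩ := Multiset.mem_map.1 hμ
    exact ⟨ν, hs ν hν, rfl⟩) (D.ev h) (hs' h) hk hN with h1 | h1
  · exact absurd h1 hnot
  · filter_upwards [h1] with n hn h2
    apply hn
    simp [ev, h2]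

/-- The return sets. -/
theorem main (M : Submonoid F) (hM : D.Spec ⊆ M) (h0 : (0 : F) ∉ M) (N : ℕ) (hN : N ≠ 0)
    (hR : Good (K := K) ((fun μ : F => algebraMap F K μ ^ N) '' (M : Set F)))
    (S : Set (MvPolynomial (Fin m) F)) :
    ∃ T : Finset (ℕ × ℕ), (∀ t ∈ T, t.2 = 0 ∨ t.2 = N) ∧
      {n : ℕ | ∀ h ∈ S, eval (D.x n) h = 0} = {n : ℕ | ∃ t ∈ T, ∃ k : ℕ, n = t.1 + t.2 * k} := by
  refine ap_of_classes N hN _ fun r => ?_
  by_cases hS : ∀ h ∈ S, h ∈ D.SS N r
  · left
    obtain ⟨n₀, hn₀⟩ := D.SS_zero N hN (D.T_inj M hM h0) r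
    filter_upwards [eventually_ge_atTop n₀] with n hn h hh
    exact hn₀ h (hS h hh) n hn
  · right
    push Not at hS
    obtain ⟨h, hh, hh'⟩ := hS
    rcases D.dich M hM N hN hR r h with h1 | h1
    · exact absurd h1 hh'
    · filter_upwards [h1] with n hn hn'
      exact hn (hn' h hh)

end Dat

end Pool.Agent.N137.AO
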