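import Pool.Agent.R847.PC.Main
import Pool.Agent.N137.AO.Sub

set_option autoImplicit false

/-!
# The theorem of Skolem, Mahler and Lech for nondegenerate recurrences
-/

namespace Pool.Agent.N137.AO

open Filter Topology

section lin

open MvPolynomial Pool.Agent.H936R2

theorem lin_dml {E : Type} [AddCommGroup E] [Module ℂ E] [FiniteDimensional ℂ E]
    (S : Module.End ℂ E) (hS : Function.Injective S) (φ : E →ₗ[ℂ] ℂ) (u : E) :
    ∃ T : Finset (ℕ × ℕ), {n : ℕ | φ ((S ^ n) u) = 0} =
      {n : ℕ | ∃ q ∈ T, ∃ m : ℕ, n = q.1 * m + q.2} := by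
  classical
  set b := Module.finBasis ℂ E with hb
  set A := LinearMap.toMatrix b b S with hA
  let f : Fin (Module.finrank ℂ E) → MvPolynomial (Fin (Module.finrank ℂ E)) ℂ :=
    fun i => ∑ j, C (A i j) * X j
  have hpt : ∀ z, pt f z = A.mulVec z := by
    intro z
    funext i
    simp [pt, f, Matrix.mulVec, dotProduct]
  have hjac : ∀ z, jac f z = A := by
    intro z
    ext i j
    simp only [jac, f, map_sum, pderiv_C_mul]
    rw [Finset.sum_eq_single j]
    · simp
    · intro k _ hk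
      rw [pderiv_X_of_ne hk]
      simp
    · intro h
      exact absurd (Finset.mem_univ _) h
  have hdet : A.det ≠ 0 := by
    rw [hA, LinearMap.det_toMatrix]
    intro h
    have h1 := LinearMap.bot_lt_ker_of_det_eq_zero h
    rw [LinearMap.ker_eq_bot.2 hS] at h1
    exact lt_irrefl _ h1
  have hit : ∀ n : ℕ, (pt f)^[n] (b.repr u) = b.repr ((S ^ n) u) := by
    intro n
    induction n with
    | zero => simp
    | succ n ih =>
      rw [Function.iterate_succ_apply', ih, hpt, pow_succ', Module.End.mul_apply, hA,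
        LinearMap.toMatrix_mulVec_repr]
  obtain ⟨T, hT⟩ := Pool.Agent.R847.PC.strict_pcf f 1
    (fun i => if i = 0 then ∅ else {1}) (by intro z g hg; simp at hg)
    (by
      intro i hi _ z hz
      have h1 := hz 1 (by rw [if_neg hi.ne']; rfl)
      simp at h1)
    (by
      intro i _
      refine ⟨0, fun z _ hz => ?_⟩
      rw [hjac] at hz
      exact absurd hz hdet)
    (by
      intro z hz
      have h1 := hz 1 (by simp)
      simp at h1)
    (b.repr u) ⟨1, by simp, by simp⟩ {∑ j, C (φ (b j)) * X j}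
  refine ⟨T, ?_⟩
  rw [← hT]
  ext n
  simp only [Set.mem_ofPred_eq, Set.mem_singleton_iff, forall_eq, hit]
  have h2 : φ ((S ^ n) u) = ∑ j, φ (b j) * (b.repr ((S ^ n) u)) j := by
    conv_lhs => rw [← b.sum_repr ((S ^ n) u), map_sum]
    refine Finset.sum_congr rfl fun j _ => ?_
    rw [map_smul, smul_eq_mul, mul_comm]
  rw [h2]
  simp

end lin

section seq

open Polynomial

variable {K : Type*} [NormedField K]

theorem aeval_sh_apply (P : K[X]) (d : ℕ) (hd : P.natDegree < d) (u : ℕ → K) (n : ℕ) :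
    (aeval (sh : Module.End K (ℕ → K)) P u) n = ∑ i ∈ Finset.range d, P.coeff i * u (n + i) := by
  conv_lhs => rw [P.as_sum_range' d hd]
  rw [map_sum, LinearMap.sum_apply, Finset.sum_apply]
  refine Finset.sum_congr rfl fun i _ => ?_
  rw [aeval_monomial]
  simp only [Module.End.mul_apply, Algebra.algebraMap_eq_smul_one, LinearMap.smul_apply,
    Module.End.one_apply, Pi.smul_apply, smul_eq_mul, sh_pow_apply]

/-- multiplication by `c ^ n` -/
def scl (c : K) : (ℕ → K) →ₗ[K] (ℕ → K) where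
  toFun u := fun n => c ^ n * u n
  map_add' u w := by funext n; simp only [Pi.add_apply]; ring
  map_smul' a u := by
    funext n
    simp only [Pi.smul_apply, smul_eq_mul, RingHom.id_apply]
    ring

@[simp] theorem scl_apply (c : K) (u : ℕ → K) (n : ℕ) : scl c u n = c ^ n * u n := rfl

theorem scl_pol (c : K) (t : Multiset K) (u : ℕ → K) :
    aeval (sh : Module.End K (ℕ → K)) (pol (t.map (c * ·))) (scl c u) =
      c ^ t.card • scl c (aeval (sh : Module.End K (ℕ → K)) (pol t) u) := by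
  induction t using Multiset.induction_on with
  | empty => simp
  | cons μ t ih =>
    have e1 : ∀ (ν : K) (s : Multiset K) (w : ℕ → K),
        aeval (sh : Module.End K (ℕ → K)) (pol (ν ::ₘ s)) w =
        aeval (sh : Module.End K (ℕ → K)) (X - C ν)
          (aeval (sh : Module.End K (ℕ → K)) (pol s) w) := by
      intro ν s w
      rw [pol_cons, map_mul, Module.End.mul_apply]
    rw [Multiset.map_cons, e1, e1, ih, aeval_lin, aeval_lin, Multiset.card_cons]
    funext n
    simp only [Pi.smul_apply, smul_eq_mul, scl_apply]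
    ring

theorem pol_natDegree (t : Multiset K) : (pol t).natDegree = t.card := by
  rw [pol, natDegree_multiset_prod_X_sub_C_eq_card]

theorem pol_monic (t : Multiset K) : (pol t).Monic := by
  rw [pol]
  exact monic_multiset_prod_of_monic _ _ fun μ _ => monic_X_sub_C μ

theorem kill_both {P Q : K[X]} (h : IsCoprime P Q) {u : ℕ → K}
    (hP : aeval (sh : Module.End K (ℕ → K)) P u = 0)
    (hQ : aeval (sh : Module.End K (ℕ → K)) Q u = 0) : u = 0 := by
  obtain ⟨a, b, hab⟩ := h
  have h1 : aeval (sh : Module.End K (ℕ → K)) (a * P + b * Q) u = u := by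
    rw [hab, map_one, Module.End.one_apply]
  rw [← h1, map_add, LinearMap.add_apply, map_mul, map_mul, Module.End.mul_apply,
    Module.End.mul_apply, hP, hQ, map_zero, map_zero, add_zero]

theorem sh_inj {t : Multiset K} (h0 : (0 : K) ∉ t) {u : ℕ → K}
    (hu : aeval (sh : Module.End K (ℕ → K)) (pol t) u = 0) (h : sh u = 0) : u = 0 := by
  have hc : IsCoprime (pol {0}) (pol t) := pol_coprime _ _ (by
    intro μ hμ ν hν h
    rw [Multiset.mem_singleton] at hμ
    rw [← h, hμ] at hν
    exact h0 hν)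
  refine kill_both hc ?_ hu
  have h1 : pol ({0} : Multiset K) = X := by
    rw [pol, Multiset.map_singleton, Multiset.prod_singleton, C_0, sub_zero]
  rw [h1, aeval_X]
  exact h

theorem sh_comm (P : K[X]) (u : ℕ → K) : aeval (sh : Module.End K (ℕ → K)) P (sh u) =
    sh (aeval (sh : Module.End K (ℕ → K)) P u) := by
  have h1 : aeval (sh : Module.End K (ℕ → K)) (P * X) u =
      aeval (sh : Module.End K (ℕ → K)) (X * P) u := by rw [mul_comm]
  rw [map_mul, map_mul, Module.End.mul_apply, Module.End.mul_apply, aeval_X] at h1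
  exact h1

theorem sh_pow_inj {t : Multiset K} (h0 : (0 : K) ∉ t) (a : ℕ) : ∀ {u : ℕ → K},
    aeval (sh : Module.End K (ℕ → K)) (pol t) u = 0 →
    ((sh : Module.End K (ℕ → K)) ^ a) u = 0 → u = 0 := by
  induction a with
  | zero =>
    intro u _ h
    simpa using h
  | succ a ih =>
    intro u hu h
    rw [pow_succ, Module.End.mul_apply] at h
    refine sh_inj h0 hu (ih ?_ h)
    rw [sh_comm, hu, map_zero]

theorem pol_le {s t : Multiset K} (h : s ≤ t) {u : ℕ → K}
    (hu : aeval (sh : Module.End K (ℕ → K)) (pol s) u = 0) :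
    aeval (sh : Module.End K (ℕ → K)) (pol t) u = 0 := by
  obtain ⟨r, rfl⟩ := Multiset.le_iff_exists_add.1 h
  rw [pol_add, mul_comm, map_mul, Module.End.mul_apply, hu, map_zero]

/-- The zeros of a nonzero nondegenerate sequence do not contain a progression. -/
theorem no_ap (t : Multiset ℂ) (h0 : (0 : ℂ) ∉ t) (b : ℕ) (hb : b ≠ 0)
    (hnd : ∀ ν ∈ t, ∀ ν' ∈ t, ν ^ b = ν' ^ b → ν = ν') (e : ℕ → ℂ)
    (he : aeval (sh : Module.End ℂ (ℕ → ℂ)) (pol t) e = 0) (a : ℕ)
    (hz : ∀ m, e (b * m + a) = 0) : e = 0 := by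
  classical
  refine sh_pow_inj h0 a he ?_
  set u := ((sh : Module.End ℂ (ℕ → ℂ)) ^ a) e with hu
  have hPu : aeval (sh : Module.End ℂ (ℕ → ℂ)) (pol t) u = 0 := by
    have h1 : aeval (sh : Module.End ℂ (ℕ → ℂ)) (pol t * X ^ a) e = 0 := by
      rw [mul_comm, map_mul, Module.End.mul_apply, he, map_zero]
    rw [map_mul, Module.End.mul_apply, map_pow, aeval_X] at h1
    exact h1
  have huz : ∀ m, u (b * m) = 0 := by
    intro m
    rw [hu, sh_pow_apply]
    exact hz m
  set ζ := Complex.exp (2 * Real.pi * Complex.I / b) with hζ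
  have hprim : IsPrimitiveRoot ζ b := Complex.isPrimitiveRoot_exp b hb
  have hζ0 : ζ ≠ 0 := hprim.ne_zero hb
  have hsum : ∑ j ∈ Finset.range b, scl (ζ ^ j) u = 0 := by
    funext n
    rw [Finset.sum_apply]
    simp only [scl_apply, Pi.zero_apply]
    have h1 : ∀ j, (ζ ^ j) ^ n * u n = u n * (ζ ^ n) ^ j := by
      intro j
      rw [← pow_mul, ← pow_mul, mul_comm j n]
      ring
    simp only [h1, ← Finset.mul_sum]
    by_cases hbn : b ∣ n
    · obtain ⟨m, rfl⟩ := hbn
      rw [huz, zero_mul]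
    · have h2 : (ζ ^ n) ≠ 1 := by
        intro h
        exact hbn (hprim.dvd_of_pow_eq_one n h)
      have h3 : (ζ ^ n) ^ b = 1 := by
        rw [← pow_mul, mul_comm, pow_mul, hprim.pow_eq_one, one_pow]
      have h4 := mul_neg_geom_sum (ζ ^ n) b
      rw [h3, sub_self] at h4
      rcases mul_eq_zero.1 h4 with h5 | h5
      · exact absurd (sub_eq_zero.1 h5).symm h2
      · rw [h5, mul_zero]
  have hmem : (0 : ℕ) ∈ Finset.range b := Finset.mem_range.2 (Nat.pos_of_ne_zero hb)
  set tQ : Multiset ℂ := ∑ j ∈ (Finset.range b).erase 0, t.map (ζ ^ j * ·) with htQ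
  have hkill : ∀ j ∈ (Finset.range b).erase 0,
      aeval (sh : Module.End ℂ (ℕ → ℂ)) (pol tQ) (scl (ζ ^ j) u) = 0 := by
    intro j hj
    refine pol_le (Finset.single_le_sum (f := fun j => t.map (ζ ^ j * ·))
      (fun _ _ => Multiset.zero_le _) hj) ?_
    rw [scl_pol, hPu, map_zero, smul_zero]
  have hu0 : u = - ∑ j ∈ (Finset.range b).erase 0, scl (ζ ^ j) u := by
    rw [← Finset.add_sum_erase _ _ hmem] at hsum
    have h1 : scl (ζ ^ 0) u = u := by
      funext n
      simp
    rw [h1] at hsum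
    exact eq_neg_of_add_eq_zero_left hsum
  have hQu : aeval (sh : Module.End ℂ (ℕ → ℂ)) (pol tQ) u = 0 := by
    rw [hu0, map_neg, map_sum, Finset.sum_eq_zero hkill, neg_zero]
  refine kill_both (pol_coprime _ _ ?_) hPu hQu
  intro ν hν ν' hν' heq
  rw [htQ, Multiset.mem_sum] at hν'
  obtain ⟨j, hj, hj'⟩ := hν'
  obtain ⟨μ, hμ, rfl⟩ := Multiset.mem_map.1 hj'
  have h1 : ν ^ b = μ ^ b := by
    rw [heq, mul_pow, ← pow_mul, mul_comm j b, pow_mul, hprim.pow_eq_one, one_pow, one_mul]
  have h2 := hnd ν hν μ hμ h1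
  rw [h2] at heq
  have hμ0 : μ ≠ 0 := fun h => h0 (h ▸ hμ)
  have h3 : ζ ^ j = 1 := by
    have h4 : ζ ^ j * μ = 1 * μ := by rw [one_mul]; exact heq.symm
    exact mul_right_cancel₀ hμ0 h4
  rw [Finset.mem_erase, Finset.mem_range] at hj
  have h5 := hprim.dvd_of_pow_eq_one j h3
  exact absurd (Nat.le_of_dvd (Nat.pos_of_ne_zero hj.1) h5) (not_le.2 hj.2)

theorem rec_zero {P : K[X]} (hP : P.Monic) {u : ℕ → K}
    (hu : aeval (sh : Module.End K (ℕ → K)) P u = 0) (h : ∀ i < P.natDegree, u i = 0) : u = 0 := by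
  have h1 : ∀ n, u (n + P.natDegree) = - ∑ i ∈ Finset.range P.natDegree, P.coeff i * u (n + i) := by
    intro n
    have h2 := aeval_sh_apply P (P.natDegree + 1) (Nat.lt_succ_self _) u n
    rw [hu, Finset.sum_range_succ, hP.coeff_natDegree, one_mul] at h2
    simp only [Pi.zero_apply] at h2
    exact eq_neg_of_add_eq_zero_right h2.symm
  funext n
  induction n using Nat.strong_induction_on with
  | _ n ih =>
    by_cases hn : n < P.natDegree
    · exact h n hn
    · obtain ⟨j, rfl⟩ := Nat.exists_eq_add_of_le (not_lt.1 hn)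
      rw [add_comm, h1, Finset.sum_eq_zero, neg_zero]
      · rfl
      · intro i hi
        rw [Finset.mem_range] at hi
        rw [ih (j + i) (by omega)]
        simp

/-- **Skolem, Mahler, Lech** for nondegenerate recurrences over `ℂ`. -/
theorem nd_zero (t : Multiset ℂ) (h0 : (0 : ℂ) ∉ t)
    (hnd : ∀ ν ∈ t, ∀ ν' ∈ t, ∀ b : ℕ, b ≠ 0 → ν ^ b = ν' ^ b → ν = ν') (e : ℕ → ℂ)
    (he : aeval (sh : Module.End ℂ (ℕ → ℂ)) (pol t) e = 0) (hne : e ≠ 0) :
    ∀ᶠ n in atTop, e n ≠ 0 := by
  classical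
  let E : Submodule ℂ (ℕ → ℂ) := LinearMap.ker (aeval (sh : Module.End ℂ (ℕ → ℂ)) (pol t))
  have hfin : FiniteDimensional ℂ E := by
    let ι : E →ₗ[ℂ] (Fin (pol t).natDegree → ℂ) :=
      { toFun := fun u i => (u : ℕ → ℂ) i
        map_add' := fun _ _ => rfl
        map_smul' := fun _ _ => rfl }
    refine FiniteDimensional.of_injective ι ?_
    rw [injective_iff_map_eq_zero]
    intro u hu
    apply Subtype.ext
    refine rec_zero (pol_monic t) (LinearMap.mem_ker.1 u.2) fun i hi => ?_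
    exact congrFun hu ⟨i, hi⟩
  have hE : ∀ u ∈ E, sh u ∈ E := by
    intro u hu
    rw [LinearMap.mem_ker] at hu ⊢
    rw [sh_comm, hu, map_zero]
  let S : Module.End ℂ E := (sh : Module.End ℂ (ℕ → ℂ)).restrict hE
  have hS : Function.Injective S := by
    rw [injective_iff_map_eq_zero]
    intro u hu
    apply Subtype.ext
    refine sh_inj h0 (LinearMap.mem_ker.1 u.2) ?_
    exact congrArg Subtype.val hu
  let φ : E →ₗ[ℂ] ℂ :=
    { toFun := fun u => (u : ℕ → ℂ) 0
      map_add' := fun _ _ => rfl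
      map_smul' := fun _ _ => rfl }
  let u : E := ⟨e, LinearMap.mem_ker.2 he⟩
  have hval : ∀ n : ℕ, φ ((S ^ n) u) = e n := by
    intro n
    have h1 : ∀ n : ℕ, (((S ^ n) u : E) : ℕ → ℂ) = ((sh : Module.End ℂ (ℕ → ℂ)) ^ n) e := by
      intro n
      induction n with
      | zero => rfl
      | succ n ih =>
        rw [pow_succ', Module.End.mul_apply, pow_succ', Module.End.mul_apply, ← ih]
        rfl
    show (((S ^ n) u : E) : ℕ → ℂ) 0 = e n
    rw [h1, sh_pow_apply, zero_add]
  obtain ⟨T, hT⟩ := lin_dml S hS φ u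
  simp only [hval] at hT
  by_contra hcon
  have hinf : {n : ℕ | e n = 0}.Infinite := by
    rw [← Nat.frequently_atTop_iff_infinite]
    intro h
    exact hcon h
  rw [hT] at hinf
  have h1 : ∃ q ∈ T, q.1 ≠ 0 := by
    by_contra h
    push Not at h
    apply hinf
    refine (T.image (fun q => q.2)).finite_toSet.subset ?_
    rintro n ⟨q, hq, m, rfl⟩
    rw [Finset.coe_image]
    refine ⟨q, hq, ?_⟩
    rw [h q hq]
    simp
  obtain ⟨q, hq, hq0⟩ := h1
  refine hne (no_ap t h0 q.1 hq0 (fun ν hν ν' hν' h => hnd ν hν ν' hν' q.1 hq0 h) e he q.2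
    fun m => ?_)
  have h2 : q.1 * m + q.2 ∈ {n : ℕ | e n = 0} := by
    rw [hT]
    exact ⟨q, hq, m, rfl⟩
  exact h2

end seq

end Pool.Agent.N137.AO
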