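import Pool.Agent.N137.AO.Geo

set_option autoImplicit false

/-!
# The action on the truncated local ring
-/

namespace Pool.Agent.N137.AO

open MvPolynomial Filter Topology

/-- An orbit of the rational map `f / g` which converges exponentially fast to `p`. -/
structure Dat (F K : Type) [Field F] [NormedField K] [Algebra F K] (m : ℕ) where
  /-- numerators -/
  f : Fin m → MvPolynomial (Fin m) F
  /-- denominator -/
  g : MvPolynomial (Fin m) F
  /-- the orbit -/
  x : ℕ → Fin m → F
  /-- the limit -/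
  p : Fin m → F
  /-- the rate -/
  c : ℝ
  c_pos : 0 < c
  c_lt : c < 1
  g_ne : ∀ n, eval (x n) g ≠ 0
  step : ∀ n i, x (n + 1) i = eval (x n) (f i) / eval (x n) g
  gp : eval p g ≠ 0
  fp : ∀ i, p i = eval p (f i) / eval p g
  conv : ∀ i, BO c (fun n => algebraMap F K (x n i - p i))

namespace Dat

variable {F K : Type} [Field F] [NormedField K] [Algebra F K] {m : ℕ} (D : Dat F K m)

/-- the values -/
noncomputable def ev (h : MvPolynomial (Fin m) F) : ℕ → K :=
  fun n => algebraMap F K (eval (D.x n) h)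

theorem ev_add (a b : MvPolynomial (Fin m) F) : D.ev (a + b) = D.ev a + D.ev b := by
  funext n; simp [ev]

theorem ev_sub (a b : MvPolynomial (Fin m) F) : D.ev (a - b) = D.ev a - D.ev b := by
  funext n; simp [ev]

theorem ev_mul (a b : MvPolynomial (Fin m) F) : D.ev (a * b) = D.ev a * D.ev b := by
  funext n; simp [ev]

theorem ev_C (a : F) : D.ev (C a) = fun _ => algebraMap F K a := by
  funext n; simp [ev]

theorem x_bdd (i : Fin m) : BO 1 (fun n => algebraMap F K (D.x n i)) := by
  have h1 := (D.conv i).mono D.c_pos.le D.c_lt.le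
  have h2 := h1.add (bo_const (algebraMap F K (D.p i)))
  convert h2 using 1
  funext n
  simp

theorem ev_near (h : MvPolynomial (Fin m) F) :
    BO D.c (fun n => algebraMap F K (eval (D.x n) h - eval D.p h)) := by
  induction h using MvPolynomial.induction_on with
  | C a =>
    have : (fun n => algebraMap F K (eval (D.x n) (C a) - eval D.p (C a))) = 0 := by
      funext n; simp
    rw [this]
    exact BO.zero _
  | add a b ha hb =>
    have := ha.add hb
    convert this using 1
    funext n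
    simp only [map_add, map_sub, Pi.add_apply]
    ring
  | mul_X a i ha =>
    have h1 := ha.mul (D.x_bdd i)
    have h2 := (D.conv i).smul (algebraMap F K (eval D.p a))
    rw [mul_one] at h1
    have h3 := h1.add h2
    convert h3 using 1
    funext n
    simp only [map_mul, map_sub, eval_X, Pi.add_apply, Pi.mul_apply, Pi.smul_apply, smul_eq_mul]
    ring

theorem ev_bdd (h : MvPolynomial (Fin m) F) : BO 1 (D.ev h) := by
  have h1 := (D.ev_near h).mono D.c_pos.le D.c_lt.le
  have h2 := h1.add (bo_const (algebraMap F K (eval D.p h)))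
  convert h2 using 1
  funext n
  simp [ev]

theorem ev_pow {k : ℕ} : ∀ {h : MvPolynomial (Fin m) F}, h ∈ mxi D.p ^ k →
    BO (D.c ^ k) (D.ev h) := by
  induction k with
  | zero =>
    intro h _
    rw [pow_zero]
    exact D.ev_bdd h
  | succ k ih =>
    intro h hh
    rw [pow_succ] at hh
    refine Submodule.mul_induction_on hh (fun a ha b hb => ?_) (fun a b ha hb => ?_)
    · rw [ev_mul, pow_succ]
      refine (ih ha).mul ?_
      have h1 := D.ev_near b
      rw [mem_mxi.1 hb] at h1
      simp only [sub_zero] at h1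
      exact h1
    · rw [ev_add]
      exact ha.add hb

theorem ev_van {h : MvPolynomial (Fin m) F} (hh : h ∈ vanI D.x) {θ : ℝ} (hθ : 0 < θ) :
    BO θ (D.ev h) := by
  refine bo_eventually hθ (BO.zero θ) ?_
  filter_upwards [mem_vanI.1 hh] with n hn
  simp [ev, hn]

/-- the ideal of functions that vanish to order `k` at `p` on the closure of the orbit -/
noncomputable def J (k : ℕ) : Ideal (MvPolynomial (Fin m) F) := mxi D.p ^ k ⊔ vanI D.x

theorem ev_J {k : ℕ} {h : MvPolynomial (Fin m) F} (hh : h ∈ D.J k) : BO (D.c ^ k) (D.ev h) := by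
  obtain ⟨a, ha, b, hb, rfl⟩ := Submodule.mem_sup.1 hh
  rw [ev_add]
  exact (D.ev_pow ha).add (D.ev_van hb (pow_pos D.c_pos k))

/-- pull back, numerator -/
noncomputable def cl (h : MvPolynomial (Fin m) F) : MvPolynomial (Fin m) F := AO.cl D.f D.g h

/-- pull back, exponent of the denominator -/
noncomputable def dg (h : MvPolynomial (Fin m) F) : ℕ := AO.dg D.f D.g h

theorem cl_x (h : MvPolynomial (Fin m) F) (n : ℕ) :
    eval (D.x n) (D.cl h) = eval (D.x n) D.g ^ D.dg h * eval (D.x (n + 1)) h :=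
  cl_eval D.f D.g h _ _ (D.g_ne n) (D.step n)

theorem cl_p (h : MvPolynomial (Fin m) F) :
    eval D.p (D.cl h) = eval D.p D.g ^ D.dg h * eval D.p h :=
  cl_eval D.f D.g h _ _ D.gp D.fp

theorem cl_mxi {h : MvPolynomial (Fin m) F} (hh : h ∈ mxi D.p) : D.cl h ∈ mxi D.p := by
  rw [mem_mxi] at hh ⊢
  rw [cl_p, hh, mul_zero]

theorem cl_van {h : MvPolynomial (Fin m) F} (hh : h ∈ vanI D.x) : D.cl h ∈ vanI D.x := by
  rw [mem_vanI] at hh ⊢
  filter_upwards [(tendsto_add_atTop_nat 1).eventually hh] with n hn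
  rw [cl_x, hn, mul_zero]

theorem van_le : vanI D.x ≤ mxi D.p := by
  intro h hh
  rw [mem_mxi]
  have h1 := (D.ev_near h).sub (D.ev_van hh D.c_pos)
  have h2 : (fun n => algebraMap F K (eval (D.x n) h - eval D.p h)) - D.ev h =
      fun _ => - algebraMap F K (eval D.p h) := by
    funext n
    simp [ev]
  rw [h2] at h1
  obtain ⟨C, hC⟩ := h1
  have h3 : Tendsto (fun n : ℕ => C * D.c ^ n) atTop (𝓝 (C * 0)) :=
    (tendsto_pow_atTop_nhds_zero_of_lt_one D.c_pos.le D.c_lt).const_mul C
  rw [mul_zero] at h3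
  have h4 : ‖- algebraMap F K (eval D.p h)‖ ≤ 0 :=
    ge_of_tendsto' h3 hC
  rw [norm_neg, norm_le_zero_iff] at h4
  exact (FaithfulSMul.algebraMap_injective F K) (by rw [h4, map_zero])

/-- the inverse of `g` modulo `mxi p ^ k` -/
noncomputable def G (k : ℕ) : MvPolynomial (Fin m) F := (inv_exists D.p D.g D.gp k).choose

theorem G_spec (k : ℕ) : D.g * D.G k - 1 ∈ mxi D.p ^ k := (inv_exists D.p D.g D.gp k).choose_spec

theorem G_mk (k : ℕ) : Ideal.Quotient.mk (D.J k) D.g * Ideal.Quotient.mk (D.J k) (D.G k) = 1 := by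
  rw [← map_mul, ← map_one (Ideal.Quotient.mk (D.J k)), Ideal.Quotient.eq]
  exact Ideal.mem_sup_left (D.G_spec k)

/-- pull back modulo `J k` -/
noncomputable def phi (k : ℕ) : MvPolynomial (Fin m) F →ₐ[F] MvPolynomial (Fin m) F ⧸ D.J k :=
  aeval fun i => Ideal.Quotient.mkₐ F (D.J k) (D.f i) * Ideal.Quotient.mk (D.J k) (D.G k)

theorem phi_apply (k : ℕ) (h : MvPolynomial (Fin m) F) :
    D.phi k h = Ideal.Quotient.mk (D.J k) (D.G k ^ D.dg h * D.cl h) := by
  have h1 := cl_spec D.f D.g h _ (Ideal.Quotient.mkₐ F (D.J k))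
    (Ideal.Quotient.mk (D.J k) (D.G k)) (D.G_mk k)
  rw [phi, h1, map_mul, map_pow]
  rfl

theorem phi_mxi (k : ℕ) {h : MvPolynomial (Fin m) F} (hh : h ∈ mxi D.p) :
    D.phi k h ∈ (mxi D.p).map (Ideal.Quotient.mk (D.J k)) := by
  rw [phi_apply]
  exact Ideal.mem_map_of_mem _ (Ideal.mul_mem_left _ _ (D.cl_mxi hh))

theorem phi_pow (k j : ℕ) {h : MvPolynomial (Fin m) F} (hh : h ∈ mxi D.p ^ j) :
    D.phi k h ∈ ((mxi D.p).map (Ideal.Quotient.mk (D.J k))) ^ j := by
  have h1 : (mxi D.p ^ j).map (D.phi k) ≤ ((mxi D.p).map (Ideal.Quotient.mk (D.J k))) ^ j := by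
    rw [Ideal.map_pow]
    refine Ideal.pow_right_mono ?_ j
    rw [Ideal.map_le_iff_le_comap]
    intro a ha
    exact D.phi_mxi k ha
  exact h1 (Ideal.mem_map_of_mem _ hh)

theorem map_pow_eq_bot (k : ℕ) : ((mxi D.p).map (Ideal.Quotient.mk (D.J k))) ^ k = ⊥ := by
  rw [← Ideal.map_pow, Ideal.map_eq_bot_iff_le_ker, Ideal.mk_ker]
  exact le_sup_left

theorem phi_J (k : ℕ) : ∀ h ∈ D.J k, D.phi k h = 0 := by
  intro h hh
  obtain ⟨a, ha, b, hb, rfl⟩ := Submodule.mem_sup.1 hh
  rw [map_add]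
  have h1 := D.phi_pow k k ha
  rw [D.map_pow_eq_bot, Ideal.mem_bot] at h1
  have h2 : D.phi k b = 0 := by
    rw [phi_apply, Ideal.Quotient.eq_zero_iff_mem]
    exact Ideal.mem_sup_right (Ideal.mul_mem_left _ _ (D.cl_van hb))
  rw [h1, h2, add_zero]

/-- the endomorphism of the truncated local ring -/
noncomputable def T (k : ℕ) :
    (MvPolynomial (Fin m) F ⧸ D.J k) →ₐ[F] (MvPolynomial (Fin m) F ⧸ D.J k) :=
  Ideal.Quotient.liftₐ (D.J k) (D.phi k) (D.phi_J k)

theorem T_mk (k : ℕ) (h : MvPolynomial (Fin m) F) :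
    D.T k (Ideal.Quotient.mk (D.J k) h) =
      Ideal.Quotient.mk (D.J k) (D.G k ^ D.dg h * D.cl h) := by
  rw [← phi_apply]
  rfl

/-- evaluation of the pull back -/
theorem ev_pull (k : ℕ) (h : MvPolynomial (Fin m) F) :
    BO (D.c ^ k) (D.ev (D.G k ^ D.dg h * D.cl h) - sh (D.ev h)) := by
  have h1 : (D.g * D.G k) ^ D.dg h - 1 ∈ mxi D.p ^ k := by
    have h2 := sub_dvd_pow_sub_pow (D.g * D.G k) 1 (D.dg h)
    rw [one_pow] at h2
    exact Ideal.mem_of_dvd _ h2 (D.G_spec k)
  have h3 := (D.ev_pow h1).mul (D.ev_bdd h).shift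
  rw [mul_one] at h3
  convert h3 using 1
  funext n
  simp only [ev, Pi.sub_apply, Pi.mul_apply, sh_apply, map_mul, map_pow, map_sub, map_one, cl_x]
  ring

theorem ev_aeval (k : ℕ) (h : MvPolynomial (Fin m) F) (s : Multiset F) :
    ∃ h' : MvPolynomial (Fin m) F, Ideal.Quotient.mk (D.J k) h' =
        Polynomial.aeval (D.T k).toLinearMap (pol s) (Ideal.Quotient.mk (D.J k) h) ∧
      BO (D.c ^ k) (D.ev h' - Polynomial.aeval (sh : Module.End K (ℕ → K))
        (pol (s.map (algebraMap F K))) (D.ev h)) := by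
  induction s using Multiset.induction_on with
  | empty =>
    refine ⟨h, by simp, ?_⟩
    have : D.ev h - Polynomial.aeval (sh : Module.End K (ℕ → K))
        (pol ((0 : Multiset F).map (algebraMap F K))) (D.ev h) = 0 := by simp
    rw [this]
    exact BO.zero _
  | cons μ s ih =>
    obtain ⟨h', h1, h2⟩ := ih
    refine ⟨D.G k ^ D.dg h' * D.cl h' - C μ * h', ?_, ?_⟩
    · rw [pol_cons, map_mul, Module.End.mul_apply, ← h1, map_sub, ← T_mk]
      simp only [map_sub, Polynomial.aeval_X, Polynomial.aeval_C, LinearMap.sub_apply,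
        AlgHom.toLinearMap_apply, Module.algebraMap_end_apply, map_mul]
      congr 1
      rw [← map_mul, ← MvPolynomial.smul_eq_C_mul]
      rfl
    · rw [Multiset.map_cons, pol_cons, map_mul, Module.End.mul_apply, aeval_lin]
      set w := Polynomial.aeval (sh : Module.End K (ℕ → K))
        (pol (s.map (algebraMap F K))) (D.ev h) with hw
      have h3 := (D.ev_pull k h').add (h2.shift.sub (h2.smul (algebraMap F K μ)))
      convert h3 using 1
      rw [ev_sub, ev_mul (D := D) (C μ) h', ev_C]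
      funext n
      simp only [Pi.sub_apply, Pi.add_apply, Pi.mul_apply, Pi.smul_apply, smul_eq_mul, sh_apply]
      ring

end Dat

end Pool.Agent.N137.AO
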