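import Mathlib

set_option autoImplicit false

/-!
# Perturbed linear recurrences

`K` is a complete normed field, `sh` the shift on sequences, `pol s` the monic polynomial with the
multiset of roots `s`, `BO θ u` means that `u` is `O(θ ^ n)`.
-/

namespace Pool.Agent.N137.AO

open Polynomial Filter Topology

section pol

variable {K : Type*} [Field K]

/-- The monic polynomial with roots `s`. -/
noncomputable def pol (s : Multiset K) : K[X] := (s.map fun μ => X - C μ).prod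

@[simp] theorem pol_zero : pol (0 : Multiset K) = 1 := by simp [pol]

@[simp] theorem pol_cons (μ : K) (s : Multiset K) : pol (μ ::ₘ s) = (X - C μ) * pol s := by
  simp [pol]

theorem pol_add (s t : Multiset K) : pol (s + t) = pol s * pol t := by
  simp [pol]

end pol

section basic

variable {K : Type*} [NormedField K]

/-- The shift. -/
def sh : Module.End K (ℕ → K) where
  toFun u := fun n => u (n + 1)
  map_add' _ _ := rfl
  map_smul' _ _ := rfl

@[simp] theorem sh_apply (u : ℕ → K) (n : ℕ) : (sh u : ℕ → K) n = u (n + 1) := rfl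

/-- `u = O(θ ^ n)` -/
def BO (θ : ℝ) (u : ℕ → K) : Prop := ∃ C : ℝ, ∀ n, ‖u n‖ ≤ C * θ ^ n

theorem aeval_lin (μ : K) (u : ℕ → K) : aeval (sh : Module.End K (ℕ → K)) (X - C μ) u =
    fun n => u (n + 1) - μ * u n := by
  funext n
  simp [Algebra.algebraMap_eq_smul_one]

theorem BO.mono {θ θ' : ℝ} (h0 : 0 ≤ θ) (h : θ ≤ θ') {u : ℕ → K} (hu : BO θ u) : BO θ' u := by
  obtain ⟨C, hC⟩ := hu
  refine ⟨max C 0, fun n => (hC n).trans ?_⟩
  have h1 : θ ^ n ≤ θ' ^ n := pow_le_pow_left₀ h0 h n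
  have h2 : (0 : ℝ) ≤ θ ^ n := pow_nonneg h0 n
  calc C * θ ^ n ≤ max C 0 * θ ^ n := mul_le_mul_of_nonneg_right (le_max_left _ _) h2
    _ ≤ max C 0 * θ' ^ n := mul_le_mul_of_nonneg_left h1 (le_max_right _ _)

theorem BO.add {θ : ℝ} {u v : ℕ → K} (hu : BO θ u) (hv : BO θ v) : BO θ (u + v) := by
  obtain ⟨C, hC⟩ := hu
  obtain ⟨D, hD⟩ := hv
  refine ⟨C + D, fun n => ?_⟩
  calc ‖(u + v) n‖ ≤ ‖u n‖ + ‖v n‖ := norm_add_le _ _
    _ ≤ C * θ ^ n + D * θ ^ n := add_le_add (hC n) (hD n)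
    _ = (C + D) * θ ^ n := by ring

theorem BO.smul {θ : ℝ} {u : ℕ → K} (hu : BO θ u) (c : K) : BO θ (c • u) := by
  obtain ⟨C, hC⟩ := hu
  refine ⟨‖c‖ * C, fun n => ?_⟩
  rw [Pi.smul_apply, smul_eq_mul, norm_mul, mul_assoc]
  exact mul_le_mul_of_nonneg_left (hC n) (norm_nonneg _)

theorem BO.neg {θ : ℝ} {u : ℕ → K} (hu : BO θ u) : BO θ (-u) := by
  obtain ⟨C, hC⟩ := hu
  exact ⟨C, fun n => by rw [Pi.neg_apply, norm_neg]; exact hC n⟩

theorem BO.sub {θ : ℝ} {u v : ℕ → K} (hu : BO θ u) (hv : BO θ v) : BO θ (u - v) := by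
  rw [sub_eq_add_neg]
  exact hu.add hv.neg

theorem BO.zero (θ : ℝ) : BO θ (0 : ℕ → K) := ⟨0, fun n => by simp⟩

theorem BO.shift {θ : ℝ} {u : ℕ → K} (hu : BO θ u) : BO θ (sh u : ℕ → K) := by
  obtain ⟨C, hC⟩ := hu
  refine ⟨C * θ, fun n => ?_⟩
  rw [sh_apply]
  calc ‖u (n + 1)‖ ≤ C * θ ^ (n + 1) := hC _
    _ = C * θ * θ ^ n := by ring

/-- `BO θ` as a submodule -/
def boSub (K : Type*) [NormedField K] (θ : ℝ) : Submodule K (ℕ → K) where
  carrier := {u | BO θ u}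
  add_mem' := fun hu hv => hu.add hv
  zero_mem' := BO.zero θ
  smul_mem' := fun c _ hu => hu.smul c

theorem BO.aeval {θ : ℝ} {u : ℕ → K} (hu : BO θ u) (P : K[X]) :
    BO θ (Polynomial.aeval (sh : Module.End K (ℕ → K)) P u) := by
  induction P using Polynomial.induction_on' with
  | add p q hp hq =>
    rw [map_add, LinearMap.add_apply]
    exact hp.add hq
  | monomial n a =>
    rw [aeval_monomial]
    simp only [Module.End.mul_apply, Algebra.algebraMap_eq_smul_one, LinearMap.smul_apply,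
      Module.End.one_apply]
    refine BO.smul ?_ a
    induction n with
    | zero => simpa using hu
    | succ n ih =>
      rw [pow_succ', Module.End.mul_apply]
      exact ih.shift

theorem bo_of_rec {θ : ℝ} (hθ : 0 < θ) {μ : K} (hμ : ‖μ‖ < θ) {u w : ℕ → K} (hw : BO θ w)
    (h : ∀ n, u (n + 1) = μ * u n + w n) : BO θ u := by
  obtain ⟨A, hA⟩ := hw
  have hA0 : 0 ≤ A := by
    have := hA 0
    simp only [pow_zero, mul_one] at this
    exact (norm_nonneg _).trans this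
  have hd : 0 < θ - ‖μ‖ := sub_pos.2 hμ
  refine ⟨max ‖u 0‖ (A / (θ - ‖μ‖)), fun n => ?_⟩
  set B := max ‖u 0‖ (A / (θ - ‖μ‖)) with hB
  have hAB : A ≤ B * (θ - ‖μ‖) := by
    rw [← div_le_iff₀ hd]
    exact le_max_right _ _
  induction n with
  | zero =>
    rw [pow_zero, mul_one]
    exact le_max_left _ _
  | succ n ih =>
    have hp : 0 ≤ θ ^ n := pow_nonneg hθ.le n
    calc ‖u (n + 1)‖ = ‖μ * u n + w n‖ := by rw [h]
      _ ≤ ‖μ‖ * ‖u n‖ + ‖w n‖ := by
        refine (norm_add_le _ _).trans ?_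
        rw [norm_mul]
      _ ≤ ‖μ‖ * (B * θ ^ n) + A * θ ^ n :=
        add_le_add (mul_le_mul_of_nonneg_left ih (norm_nonneg _)) (hA n)
      _ ≤ ‖μ‖ * (B * θ ^ n) + (B * (θ - ‖μ‖)) * θ ^ n := by
        have := mul_le_mul_of_nonneg_right hAB hp
        linarith
      _ = B * θ ^ (n + 1) := by ring

theorem bo_all {θ : ℝ} (hθ : 0 < θ) (s : Multiset K) (hs : ∀ μ ∈ s, ‖μ‖ < θ) :
    ∀ e : ℕ → K, aeval (sh : Module.End K (ℕ → K)) (pol s) e = 0 → BO θ e := by
  induction s using Multiset.induction_on with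
  | empty =>
    intro e he
    simp only [pol_zero, map_one, Module.End.one_apply] at he
    rw [he]
    exact BO.zero θ
  | cons μ s ih =>
    intro e he
    rw [pol_cons, mul_comm, map_mul, Module.End.mul_apply, aeval_lin] at he
    have h1 := ih (fun ν hν => hs ν (Multiset.mem_cons_of_mem hν)) _ he
    refine bo_of_rec hθ (hs μ (Multiset.mem_cons_self _ _)) h1 fun n => ?_
    ring

end basic

section complete

variable {K : Type*} [NormedField K] [CompleteSpace K]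

theorem lim_of_rec {θ : ℝ} (hθ : 0 ≤ θ) {μ : K} (hμ : θ < ‖μ‖) {u w : ℕ → K} (hw : BO θ w)
    (h : ∀ n, u (n + 1) = μ * u n + w n) : ∃ c : K, BO θ (fun n => u n - c * μ ^ n) := by
  obtain ⟨A, hA⟩ := hw
  have hμ0 : 0 < ‖μ‖ := hθ.trans_lt hμ
  have hμne : μ ≠ 0 := norm_pos_iff.1 hμ0
  set r := θ / ‖μ‖ with hr
  have hr1 : r < 1 := (div_lt_one hμ0).2 hμ
  have hd : ∀ n, dist (u n / μ ^ n) (u (n + 1) / μ ^ (n + 1)) ≤ (A / ‖μ‖) * r ^ n := by
    intro n
    rw [dist_eq_norm, ← norm_neg, neg_sub]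
    have h1 : u (n + 1) / μ ^ (n + 1) - u n / μ ^ n = w n / μ ^ (n + 1) := by
      rw [h, pow_succ]
      field_simp
      ring
    rw [h1, norm_div, norm_pow, hr, div_pow, pow_succ]
    have h2 := hA n
    have h3 : 0 < ‖μ‖ ^ n := pow_pos hμ0 n
    rw [div_mul_div_comm, mul_comm (‖μ‖ ^ n) ‖μ‖]
    exact div_le_div_of_nonneg_right h2 (by positivity)
  obtain ⟨c, hc⟩ := cauchySeq_tendsto_of_complete (cauchySeq_of_le_geometric r (A / ‖μ‖) hr1 hd)
  refine ⟨c, (A / ‖μ‖) / (1 - r), fun n => ?_⟩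
  have h4 := dist_le_of_le_geometric_of_tendsto r (A / ‖μ‖) hr1 hd hc n
  rw [dist_eq_norm] at h4
  have h5 : u n - c * μ ^ n = (u n / μ ^ n - c) * μ ^ n := by
    field_simp
  show ‖u n - c * μ ^ n‖ ≤ _
  rw [h5, norm_mul, norm_pow]
  calc ‖u n / μ ^ n - c‖ * ‖μ‖ ^ n ≤ (A / ‖μ‖) * r ^ n / (1 - r) * ‖μ‖ ^ n :=
        mul_le_mul_of_nonneg_right h4 (by positivity)
    _ = (A / ‖μ‖) / (1 - r) * (r * ‖μ‖) ^ n := by
        rw [mul_pow]
        ring
    _ = (A / ‖μ‖) / (1 - r) * θ ^ n := by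
        rw [hr, div_mul_cancel₀ _ hμ0.ne']

theorem exact_of_approx (s : Multiset K) : ∀ {η η' : ℝ}, 0 ≤ η → η < η' → ∀ u : ℕ → K,
    BO η (aeval (sh : Module.End K (ℕ → K)) (pol s) u) →
    ∃ e : ℕ → K, aeval (sh : Module.End K (ℕ → K)) (pol s) e = 0 ∧ BO η' (u - e) := by
  induction s using Multiset.induction_on with
  | empty =>
    intro η η' h0 h1 u hu
    refine ⟨0, by simp, ?_⟩
    simp only [pol_zero, map_one, Module.End.one_apply] at hu
    rw [sub_zero]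
    exact hu.mono h0 h1.le
  | cons μ s ih =>
    intro η η' h0 h1 u hu
    obtain ⟨η₁, hη, hη'⟩ := exists_between h1
    have hη₁ : 0 ≤ η₁ := h0.trans hη.le
    rw [pol_cons, mul_comm, map_mul, Module.End.mul_apply, aeval_lin] at hu
    obtain ⟨e', he', hwe⟩ := ih h0 hη _ hu
    -- the exact solution
    let e₁ : ℕ → K := fun n => Nat.rec (u 0) (fun n x => μ * x + e' n) n
    have he₁ : ∀ n, e₁ (n + 1) = μ * e₁ n + e' n := fun n => rfl
    have hP : ∀ v : ℕ → K, (∀ n, v (n + 1) = μ * v n + e' n) →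
        aeval (sh : Module.End K (ℕ → K)) (pol (μ ::ₘ s)) v = 0 := by
      intro v hv
      rw [pol_cons, mul_comm, map_mul, Module.End.mul_apply, aeval_lin]
      have : (fun n => v (n + 1) - μ * v n) = e' := by
        funext n
        rw [hv]
        ring
      rw [this, he']
    have hr : ∀ n, (u - e₁) (n + 1) = μ * (u - e₁) n +
        ((fun n => u (n + 1) - μ * u n) - e') n := by
      intro n
      simp only [Pi.sub_apply, he₁]
      ring
    by_cases hμ : η₁ < ‖μ‖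
    · obtain ⟨c, hc⟩ := lim_of_rec hη₁ hμ hwe hr
      refine ⟨fun n => e₁ n + c * μ ^ n, hP _ fun n => ?_, ?_⟩
      · rw [he₁]
        ring
      · have h2 : (u - fun n => e₁ n + c * μ ^ n) = fun n => (u - e₁) n - c * μ ^ n := by
          funext n
          simp only [Pi.sub_apply]
          ring
        rw [h2]
        exact hc.mono hη₁ hη'.le
    · rw [not_lt] at hμ
      exact ⟨e₁, hP _ he₁, bo_of_rec (hη₁.trans_lt hη') (hμ.trans_lt hη')
        (hwe.mono hη₁ hη'.le) hr⟩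

end complete

section dom

variable {K : Type*} [NormedField K]

/-- Exact solutions of linear recurrences with roots in `R` of the same absolute value are not
small. -/
def Good (R : Set K) : Prop := ∀ ρ : ℝ, 0 < ρ → ∀ t : Multiset K, (∀ μ ∈ t, μ ∈ R ∧ ‖μ‖ = ρ) →
  ∀ e : ℕ → K, aeval (sh : Module.End K (ℕ → K)) (pol t) e = 0 → e ≠ 0 →
    ∃ c : ℝ, 0 < c ∧ ∀ᶠ n in atTop, c * ρ ^ n ≤ ‖e n‖

theorem pol_coprime (s t : Multiset K) (h : ∀ μ ∈ s, ∀ ν ∈ t, μ ≠ ν) :
    IsCoprime (pol s) (pol t) := by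
  induction s using Multiset.induction_on with
  | empty => rw [pol_zero]; exact isCoprime_one_left
  | cons μ s ih =>
    rw [pol_cons]
    refine IsCoprime.mul_left ?_ (ih fun a ha => h a (Multiset.mem_cons_of_mem ha))
    have h1 := h μ (Multiset.mem_cons_self _ _)
    clear ih h
    induction t using Multiset.induction_on with
    | empty => rw [pol_zero]; exact isCoprime_one_right
    | cons ν t ih =>
      rw [pol_cons]
      refine IsCoprime.mul_right ?_ (ih fun a ha => h1 a (Multiset.mem_cons_of_mem ha))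
      refine isCoprime_X_sub_C_of_isUnit_sub ?_
      exact (sub_ne_zero.2 (h1 ν (Multiset.mem_cons_self _ _))).isUnit

theorem dominate {R : Set K} (hR : Good R) (η : ℝ) (hη : 0 ≤ η) : ∀ (k : ℕ) (s : Multiset K),
    s.card = k → (∀ μ ∈ s, μ ∈ R) → ∀ e : ℕ → K,
    aeval (sh : Module.End K (ℕ → K)) (pol s) e = 0 →
    (∀ η' : ℝ, η < η' → BO η' e) ∨
      ∃ ρ c : ℝ, η < ρ ∧ 0 < c ∧ ∀ᶠ n in atTop, c * ρ ^ n ≤ ‖e n‖ := by
  classical
  intro k
  induction k using Nat.strong_induction_on with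
  | _ k ih =>
  intro s hk hs e he
  by_cases hall : ∀ μ ∈ s, ‖μ‖ ≤ η
  · left
    intro η' hη'
    exact bo_all (hη.trans_lt hη') s (fun μ hμ => (hall μ hμ).trans_lt hη') e he
  push Not at hall
  obtain ⟨μ₀, hμ₀, hμ₀'⟩ := hall
  have hne : s.toFinset.Nonempty := ⟨μ₀, Multiset.mem_toFinset.2 hμ₀⟩
  obtain ⟨μ₁, hμ₁, hmax⟩ := s.toFinset.exists_max_image (fun μ => ‖μ‖) hne
  rw [Multiset.mem_toFinset] at hμ₁
  set ρ := ‖μ₁‖ with hρ
  have hηρ : η < ρ := hμ₀'.trans_le (hmax μ₀ (Multiset.mem_toFinset.2 hμ₀))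
  have hρ0 : 0 < ρ := hη.trans_lt hηρ
  set s₁ := s.filter (fun μ => ‖μ‖ = ρ) with hs₁
  set s₂ := s.filter (fun μ => ¬ ‖μ‖ = ρ) with hs₂
  have hsum : s₁ + s₂ = s := Multiset.filter_add_not _ _
  have hcard : s₂.card < k := by
    have h1 : s₁.card + s₂.card = k := by rw [← Multiset.card_add, hsum, hk]
    have h2 : 0 < s₁.card := Multiset.card_pos_iff_exists_mem.2
      ⟨μ₁, Multiset.mem_filter.2 ⟨hμ₁, rfl⟩⟩
    omega
  have hcop : IsCoprime (pol s₁) (pol s₂) := by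
    refine pol_coprime _ _ fun μ hμ ν hν h => ?_
    rw [hs₁, Multiset.mem_filter] at hμ
    rw [hs₂, Multiset.mem_filter] at hν
    rw [h] at hμ
    exact hν.2 hμ.2
  obtain ⟨a, b, hab⟩ := hcop
  set e₁ := aeval (sh : Module.End K (ℕ → K)) (b * pol s₂) e with he₁
  set e₂ := aeval (sh : Module.End K (ℕ → K)) (a * pol s₁) e with he₂
  have hsplit : e = e₁ + e₂ := by
    rw [he₁, he₂, ← LinearMap.add_apply, ← map_add, add_comm, hab, map_one,
      Module.End.one_apply]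
  have hpol : pol s = pol s₁ * pol s₂ := by rw [← pol_add, hsum]
  have h1 : aeval (sh : Module.End K (ℕ → K)) (pol s₁) e₁ = 0 := by
    rw [he₁, ← Module.End.mul_apply, ← map_mul,
      show pol s₁ * (b * pol s₂) = b * pol s by rw [hpol]; ring, map_mul, Module.End.mul_apply, he,
      map_zero]
  have h2 : aeval (sh : Module.End K (ℕ → K)) (pol s₂) e₂ = 0 := by
    rw [he₂, ← Module.End.mul_apply, ← map_mul,
      show pol s₂ * (a * pol s₁) = a * pol s by rw [hpol]; ring, map_mul, Module.End.mul_apply, he,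
      map_zero]
  by_cases h0 : e₁ = 0
  · rw [h0, zero_add] at hsplit
    rw [hsplit]
    exact ih _ hcard s₂ rfl (fun μ hμ => hs μ (Multiset.mem_filter.1 hμ).1) e₂ h2
  · right
    obtain ⟨c, hc, hev⟩ := hR ρ hρ0 s₁ (fun μ hμ => by
      rw [hs₁, Multiset.mem_filter] at hμ
      exact ⟨hs μ hμ.1, hμ.2⟩) e₁ h1 h0
    -- the other part is smaller
    obtain ⟨θ, hθ0, hθρ, hθ⟩ : ∃ θ : ℝ, 0 < θ ∧ θ < ρ ∧ ∀ μ ∈ s₂, ‖μ‖ < θ := by
      have hlt : ∀ μ ∈ s₂, ‖μ‖ < ρ := by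
        intro μ hμ
        rw [hs₂, Multiset.mem_filter] at hμ
        exact lt_of_le_of_ne (hmax μ (Multiset.mem_toFinset.2 hμ.1)) hμ.2
      obtain ⟨M, hM0, hMρ, hM⟩ : ∃ M : ℝ, 0 ≤ M ∧ M < ρ ∧ ∀ μ ∈ s₂, ‖μ‖ ≤ M := by
        rcases s₂.toFinset.eq_empty_or_nonempty with h | h
        · refine ⟨0, le_rfl, hρ0, fun μ hμ => ?_⟩
          rw [← Multiset.mem_toFinset, h] at hμ
          exact absurd hμ (Finset.notMem_empty _)
        · obtain ⟨ν, hν, hνmax⟩ := s₂.toFinset.exists_max_image (fun μ => ‖μ‖) h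
          exact ⟨‖ν‖, norm_nonneg _, hlt ν (Multiset.mem_toFinset.1 hν),
            fun μ hμ => hνmax μ (Multiset.mem_toFinset.2 hμ)⟩
      obtain ⟨θ, h3, h4⟩ := exists_between hMρ
      exact ⟨θ, hM0.trans_lt h3, h4, fun μ hμ => (hM μ hμ).trans_lt h3⟩
    obtain ⟨D, hD⟩ := bo_all hθ0 s₂ hθ e₂ h2
    refine ⟨ρ, c / 2, hηρ, by positivity, ?_⟩
    have h3 : Tendsto (fun n : ℕ => D * (θ / ρ) ^ n) atTop (𝓝 (D * 0)) :=
      (tendsto_pow_atTop_nhds_zero_of_lt_one (by positivity) ((div_lt_one hρ0).2 hθρ)).const_mul D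
    rw [mul_zero] at h3
    filter_upwards [hev, h3.eventually_lt_const (half_pos hc)] with n hn1 hn2
    have h4 : ‖e₂ n‖ ≤ c / 2 * ρ ^ n := by
      refine (hD n).trans ?_
      have h5 : θ ^ n = (θ / ρ) ^ n * ρ ^ n := by
        rw [div_pow, div_mul_cancel₀ _ (pow_pos hρ0 n).ne']
      rw [h5, ← mul_assoc]
      exact mul_le_mul_of_nonneg_right hn2.le (by positivity)
    have h6 : ‖e₁ n‖ ≤ ‖e n‖ + ‖e₂ n‖ := by
      have h7 : e₁ n = e n - e₂ n := by
        rw [hsplit]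
        simp
      rw [h7]
      exact norm_sub_le _ _
    linarith

end dom

end Pool.Agent.N137.AO
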