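import Pool.Agent.N137.AO.Cot

set_option autoImplicit false

/-!
# The eigenvalues of the action on the truncated local rings
-/

namespace Pool.Agent.N137.AO

open MvPolynomial Filter Topology

namespace Dat

variable {F K : Type} [Field F] [NormedField K] [Algebra F K] {m : ℕ} (D : Dat F K m)

/-- The tangent space of the closure of the orbit. -/
noncomputable def W : Submodule F (Fin m → F) where
  carrier := {w | ∀ h ∈ vanI D.x, der D.p w h = 0}
  add_mem' := by
    intro a b ha hb h hh
    rw [der_add_left, ha h hh, hb h hh, add_zero]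
  zero_mem' := by
    intro h _
    simp [der_apply]
  smul_mem' := by
    intro c a ha h hh
    rw [der_smul_left, ha h hh, mul_zero]

/-- The derivative as a linear map. -/
noncomputable def Lm : Module.End F (Fin m → F) where
  toFun := D.L
  map_add' := by
    intro a b
    funext i
    simp only [L, der_add_left, Pi.add_apply]
    ring
  map_smul' := by
    intro c a
    funext i
    simp only [L, der_smul_left, Pi.smul_apply, smul_eq_mul, RingHom.id_apply]
    ring

theorem Lm_apply (w : Fin m → F) : D.Lm w = D.L w := rfl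

theorem L_W : ∀ w ∈ D.W, D.Lm w ∈ D.W := by
  intro w hw h hh
  have h1 := D.der_cl w (D.van_le hh)
  rw [hw _ (D.cl_van hh)] at h1
  rcases mul_eq_zero.1 h1.symm with h2 | h2
  · exact absurd h2 (pow_ne_zero _ D.gp)
  · exact h2

/-- a function whose derivatives in the tangent directions vanish -/
theorem mem_J2 {h : MvPolynomial (Fin m) F} (hh : h ∈ mxi D.p) (hW : ∀ w ∈ D.W, der D.p w h = 0) :
    h ∈ D.J 2 := by
  let dl : MvPolynomial (Fin m) F →ₗ[F] Module.Dual F (Fin m → F) :=
    { toFun := fun h =>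
        { toFun := fun w => der D.p w h
          map_add' := fun a b => der_add_left _ _ _ _
          map_smul' := fun c a => der_smul_left _ _ _ _ }
      map_add' := fun a b => by ext; simp
      map_smul' := fun c a => by ext; simp }
  have hdl : ∀ h w, dl h w = der D.p w h := fun _ _ => rfl
  let V : Submodule F (Module.Dual F (Fin m → F)) :=
    Submodule.map dl ((vanI D.x).restrictScalars F)
  have h1 : dl h ∈ V.dualCoannihilator.dualAnnihilator := by
    rw [Submodule.mem_dualAnnihilator]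
    intro w hw
    rw [hdl]
    apply hW
    intro q hq
    rw [Submodule.mem_dualCoannihilator] at hw
    exact hw (dl q) ⟨q, hq, rfl⟩
  rw [Subspace.dualCoannihilator_dualAnnihilator_eq] at h1
  obtain ⟨q, hq, hqe⟩ := h1
  have hq' : q ∈ vanI D.x := hq
  have h2 : h - q ∈ mxi D.p ^ 2 := by
    have h3 := taylor D.p (h - q)
    have h4 : ∀ j, eval D.p (pderiv j (h - q)) = 0 := by
      intro j
      have h5 := LinearMap.congr_fun hqe (Pi.single j 1)
      rw [hdl, hdl] at h5
      simp only [der_apply, Pi.single_apply, ite_mul, one_mul, zero_mul, Finset.sum_ite_eq',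
        Finset.mem_univ, if_true] at h5
      rw [map_sub, map_sub, h5, sub_self]
    have h6 : eval D.p (h - q) = 0 := by
      rw [map_sub, mem_mxi.1 hh, mem_mxi.1 (D.van_le hq'), sub_self]
    simp only [h4, h6, map_zero, zero_mul, Finset.sum_const_zero, sub_zero] at h3
    exact h3
  have h7 : h = (h - q) + q := by ring
  rw [h7]
  exact Submodule.add_mem_sup h2 hq'

/-- The eigenvalues of the derivative on the tangent space. -/
def Spec : Set F := {μ | ∃ w ∈ D.W, w ≠ 0 ∧ D.L w = μ • w}

theorem cot {k : ℕ} (hk : 2 ≤ k) {μ : F} (hμ : μ ∉ D.Spec) {h : MvPolynomial (Fin m) F}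
    (hh : h ∈ mxi D.p) (h2 : D.G k ^ D.dg h * D.cl h - C μ * h ∈ D.J 2) : h ∈ D.J 2 := by
  apply D.mem_J2 hh
  -- the functional
  have hJ : ∀ y ∈ D.J 2, ∀ w ∈ D.W, der D.p w y = 0 := by
    intro y hy w hw
    obtain ⟨a, ha, b, hb, rfl⟩ := Submodule.mem_sup.1 hy
    rw [map_add, der_sq _ _ ha, hw b hb, add_zero]
  have hGp : eval D.p D.g * eval D.p (D.G k) = 1 := by
    have h3 := Ideal.pow_le_pow_right (by omega : 1 ≤ k) (D.G_spec k)
    rw [pow_one, mem_mxi, map_sub, map_mul, map_one, sub_eq_zero] at h3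
    exact h3
  have key : ∀ w ∈ D.W, der D.p (D.L w) h = μ * der D.p w h := by
    intro w hw
    have h3 := hJ _ h2 w hw
    rw [map_sub, der_mul, der_mul, eval_C, der_C, mem_mxi.1 (D.cl_mxi hh), zero_mul, add_zero,
      mul_zero, add_zero, D.der_cl w hh, map_pow, ← mul_assoc, ← mul_pow,
      mul_comm (eval D.p (D.G k)), hGp, one_pow, one_mul, sub_eq_zero] at h3
    exact h3
  by_contra hcon
  push Not at hcon
  obtain ⟨w₀, hw₀, hne⟩ := hcon
  -- the restriction of `L - μ` to `W` is not surjective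
  let S : Module.End F D.W := (D.Lm - μ • (1 : Module.End F (Fin m → F))).restrict (by
    intro w hw
    rw [LinearMap.sub_apply, LinearMap.smul_apply, Module.End.one_apply]
    exact D.W.sub_mem (D.L_W w hw) (D.W.smul_mem _ hw))
  have hS : ∀ w : D.W, ((S w : D.W) : Fin m → F) = D.L w - μ • (w : Fin m → F) := fun w => rfl
  have h5 : ¬ Function.Surjective S := by
    intro hsurj
    obtain ⟨w, hw⟩ := hsurj ⟨w₀, hw₀⟩
    have h6 : D.L w - μ • (w : Fin m → F) = w₀ := by
      rw [← hS, hw]
    apply hne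
    rw [← h6, sub_eq_add_neg, der_add_left, ← neg_smul, der_smul_left, key w w.2]
    ring
  have h7 : ¬ Function.Injective S := fun h => h5 (LinearMap.injective_iff_surjective.1 h)
  rw [← LinearMap.ker_eq_bot] at h7
  obtain ⟨w, hw, hw0⟩ := Submodule.exists_mem_ne_zero_of_ne_bot h7
  apply hμ
  refine ⟨w, w.2, fun h => hw0 (Subtype.ext h), ?_⟩
  have h8 := congrArg (fun z : D.W => (z : Fin m → F)) (LinearMap.mem_ker.1 hw)
  simp only [hS] at h8
  exact sub_eq_zero.1 h8

/-! ### finite dimension -/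

theorem fin_span (I : Ideal (MvPolynomial (Fin m) F)) (hI : ∀ a, ∃ c : F, a - C c ∈ I) (k : ℕ) :
    ∃ V : Submodule F (MvPolynomial (Fin m) F), V.FG ∧ ∀ a, ∃ v ∈ V, a - v ∈ I ^ k := by
  classical
  induction k with
  | zero =>
    exact ⟨⊥, Submodule.fg_bot, fun a => ⟨0, Submodule.zero_mem _, by
      rw [pow_zero, Ideal.one_eq_top]; exact Submodule.mem_top⟩⟩
  | succ k ih =>
    obtain ⟨V, hV, hVa⟩ := ih
    obtain ⟨s, hs⟩ := (isNoetherianRing_iff_ideal_fg _).1 inferInstance (I ^ k)
    refine ⟨V ⊔ Submodule.span F (s : Set (MvPolynomial (Fin m) F)),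
      hV.sup (Submodule.fg_span s.finite_toSet), fun a => ?_⟩
    obtain ⟨v, hv, hav⟩ := hVa a
    have h1 : ∀ b ∈ I ^ k, ∃ u ∈ Submodule.span F (s : Set (MvPolynomial (Fin m) F)),
        b - u ∈ I ^ (k + 1) := by
      intro b hb
      rw [← hs] at hb
      refine Submodule.span_induction (fun y hy => ?_) ?_ (fun y z _ _ hy hz => ?_)
        (fun r y hy' hy => ?_) hb
      · exact ⟨y, Submodule.subset_span hy, by rw [sub_self]; exact Ideal.zero_mem _⟩
      · exact ⟨0, Submodule.zero_mem _, by rw [sub_self]; exact Ideal.zero_mem _⟩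
      · obtain ⟨u, hu, hu'⟩ := hy
        obtain ⟨t, ht, ht'⟩ := hz
        refine ⟨u + t, Submodule.add_mem _ hu ht, ?_⟩
        rw [add_sub_add_comm]
        exact Ideal.add_mem _ hu' ht'
      · obtain ⟨u, hu, hu'⟩ := hy
        obtain ⟨c, hc⟩ := hI r
        refine ⟨c • u, Submodule.smul_mem _ _ hu, ?_⟩
        have e : r • y - c • u = (r - C c) * y + C c * (y - u) := by
          rw [smul_eq_mul, MvPolynomial.smul_eq_C_mul]
          ring
        rw [e]
        refine Ideal.add_mem _ ?_ (Ideal.mul_mem_left _ _ hu')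
        rw [pow_succ']
        refine Ideal.mul_mem_mul hc ?_
        rw [← hs]
        exact hy'
    obtain ⟨u, hu, hu'⟩ := h1 _ hav
    refine ⟨v + u, Submodule.add_mem_sup hv hu, ?_⟩
    rw [← sub_sub]
    exact hu'

theorem mxi_codim (p : Fin m → F) (a : MvPolynomial (Fin m) F) : ∃ c : F, a - C c ∈ mxi p :=
  ⟨eval p a, by rw [mem_mxi]; simp⟩

instance (k : ℕ) : FiniteDimensional F (MvPolynomial (Fin m) F ⧸ D.J k) := by
  obtain ⟨V, hV, hVa⟩ := fin_span (mxi D.p) (mxi_codim D.p) k
  refine ⟨?_⟩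
  have h1 : Submodule.map (Ideal.Quotient.mkₐ F (D.J k)).toLinearMap V = ⊤ := by
    rw [eq_top_iff]
    intro a _
    obtain ⟨a, rfl⟩ := Ideal.Quotient.mk_surjective a
    obtain ⟨v, hv, hav⟩ := hVa a
    refine ⟨v, hv, ?_⟩
    rw [AlgHom.toLinearMap_apply, Ideal.Quotient.mkₐ_eq_mk]
    symm
    rw [Ideal.Quotient.eq]
    exact Ideal.mem_sup_left hav
  rw [← h1]
  exact hV.map _

variable [IsAlgClosed F]

theorem T_eig (M : Submonoid F) (hM : D.Spec ⊆ M) (k : ℕ) (μ : F)
    (a : MvPolynomial (Fin m) F ⧸ D.J k) (ha : D.T k a = μ • a) (ha0 : a ≠ 0) : μ ∈ M := by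
  refine eig_mem (D.T k) M ((mxi D.p).map (Ideal.Quotient.mk (D.J k))) k (D.map_pow_eq_bot k)
    ?_ ?_ ?_ μ a ha ha0
  · intro a
    obtain ⟨a, rfl⟩ := Ideal.Quotient.mk_surjective a
    obtain ⟨c, hc⟩ := mxi_codim D.p a
    refine ⟨c, ?_⟩
    have := Ideal.mem_map_of_mem (Ideal.Quotient.mk (D.J k)) hc
    rw [map_sub] at this
    exact this
  · intro a ha
    obtain ⟨h, hh, rfl⟩ := (Ideal.mem_map_iff_of_surjective _ Ideal.Quotient.mk_surjective).1 ha
    have := D.phi_mxi k hh
    exact this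
  · intro ν hν a ha hT
    by_cases hk : k < 2
    · have h1 : ((mxi D.p).map (Ideal.Quotient.mk (D.J k))) ^ 2 = ⊥ := by
        have h2 := Ideal.pow_le_pow_right (I := (mxi D.p).map (Ideal.Quotient.mk (D.J k)))
          (by omega : k ≤ 2)
        rw [D.map_pow_eq_bot k] at h2
        exact le_bot_iff.1 h2
      by_cases hk0 : k = 0
      · subst hk0
        obtain ⟨h, rfl⟩ := Ideal.Quotient.mk_surjective a
        have h3 : h ∈ D.J 0 := by
          refine Ideal.mem_sup_left ?_
          rw [pow_zero, Ideal.one_eq_top]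
          exact Submodule.mem_top
        rw [Ideal.Quotient.eq_zero_iff_mem.2 h3]
        exact Ideal.zero_mem _
      · have hk1 : k = 1 := by omega
        subst hk1
        have h3 : (mxi D.p).map (Ideal.Quotient.mk (D.J 1)) = ⊥ :=
          (pow_one _).symm.trans (D.map_pow_eq_bot 1)
        rw [h1, ← h3]
        exact ha
    · rw [not_lt] at hk
      obtain ⟨h, hh, rfl⟩ := (Ideal.mem_map_iff_of_surjective _ Ideal.Quotient.mk_surjective).1 ha
      rw [← Ideal.map_pow] at hT ⊢
      rw [T_mk] at hT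
      have h1 : Ideal.Quotient.mk (D.J k) (D.G k ^ D.dg h * D.cl h - C ν * h) ∈
          (mxi D.p ^ 2).map (Ideal.Quotient.mk (D.J k)) := by
        rw [map_sub, map_mul (Ideal.Quotient.mk (D.J k)) (C ν)]
        convert hT using 2
        rw [← map_mul, ← MvPolynomial.smul_eq_C_mul]
        rfl
      have h2 : D.G k ^ D.dg h * D.cl h - C ν * h ∈ D.J 2 := by
        rw [← Ideal.mem_comap, Ideal.comap_map_of_surjective' _ Ideal.Quotient.mk_surjective,
          Ideal.mk_ker] at h1
        refine (sup_le le_sup_left ?_ : mxi D.p ^ 2 ⊔ D.J k ≤ D.J 2) h1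
        exact sup_le_sup_right (Ideal.pow_le_pow_right hk) _
      have h3 := D.cot hk (fun h => hν (hM h)) hh h2
      obtain ⟨b, hb, c, hc, rfl⟩ := Submodule.mem_sup.1 h3
      rw [map_add, (Ideal.Quotient.eq_zero_iff_mem (I := D.J k)).2 (Ideal.mem_sup_right hc),
        add_zero]
      exact Ideal.mem_map_of_mem _ hb

theorem approx_rec (M : Submonoid F) (hM : D.Spec ⊆ M) (k : ℕ) :
    ∃ s : Multiset F, (∀ μ ∈ s, μ ∈ M) ∧ ∀ h : MvPolynomial (Fin m) F,
      BO (D.c ^ k) (Polynomial.aeval (sh : Module.End K (ℕ → K))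
        (pol (s.map (algebraMap F K))) (D.ev h)) := by
  set P := minpoly F (D.T k).toLinearMap with hP
  have hmon : P.Monic := minpoly.monic (Algebra.IsIntegral.isIntegral _)
  have hPs : P = pol P.roots := (IsAlgClosed.splits P).eq_prod_roots_of_monic hmon
  refine ⟨P.roots, fun μ hμ => ?_, fun h => ?_⟩
  · have h1 : P.IsRoot μ := Polynomial.isRoot_of_mem_roots hμ
    obtain ⟨a, ha⟩ := (Module.End.hasEigenvalue_of_isRoot h1).exists_hasEigenvector
    exact D.T_eig M hM k μ a ha.apply_eq_smul ha.2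
  · obtain ⟨h', h1, h2⟩ := D.ev_aeval k h P.roots
    rw [← hPs, hP, minpoly.aeval, LinearMap.zero_apply] at h1
    have h3 := D.ev_J (Ideal.Quotient.eq_zero_iff_mem.1 h1)
    have h4 := h3.sub h2
    rw [sub_sub_cancel] at h4
    exact h4

end Dat

end Pool.Agent.N137.AO
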